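import Pool.Agent.X104.PS.Ineq

/-!
Abstract existence of solutions of the Dirichlet problem for the `p`-Laplacian: the minimiser of
`‖∇u‖^p/p - ℓ(u)` on a closed subspace of `L^p × L^p` with a Poincaré inequality.
-/

set_option autoImplicit false

noncomputable section

open Filter Topology Set MeasureTheory
open scoped RealInnerProductSpace ENNReal

namespace Pool.Agent.X104.PS

variable {α : Type*} [MeasurableSpace α] {μ : Measure α}
variable {F : Type*} [NormedAddCommGroup F]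
variable {E : Type*} [NormedAddCommGroup E] [InnerProductSpace ℝ E]
variable {p : ℝ}

theorem P_ne_zero (hp : 1 < p) : ENNReal.ofReal p ≠ 0 := by
  rw [Ne, ENNReal.ofReal_eq_zero, not_le]; linarith

theorem P_toReal (hp : 1 < p) : (ENNReal.ofReal p).toReal = p :=
  ENNReal.toReal_ofReal (by linarith)

theorem memLp_int (hp : 1 < p) {f : α → F} (hf : MemLp f (ENNReal.ofReal p) μ) :
    Integrable (fun x => ‖f x‖ ^ p) μ := by
  have := hf.integrable_norm_rpow (P_ne_zero hp) ENNReal.ofReal_ne_top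
  rwa [P_toReal hp] at this

theorem eLpNorm_int (hp : 1 < p) {f : α → F} (hf : MemLp f (ENNReal.ofReal p) μ) :
    eLpNorm f (ENNReal.ofReal p) μ = ENNReal.ofReal ((∫ x, ‖f x‖ ^ p ∂μ) ^ p⁻¹) := by
  rw [MemLp.eLpNorm_eq_integral_rpow_norm (P_ne_zero hp) ENNReal.ofReal_ne_top hf, P_toReal hp]

theorem Lp_norm_rpow (hp : 1 < p) (f : Lp F (ENNReal.ofReal p) μ) :
    ‖f‖ ^ p = ∫ x, ‖f x‖ ^ p ∂μ := by
  have h0 : 0 ≤ ∫ x, ‖f x‖ ^ p ∂μ := integral_nonneg fun x => by positivity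
  rw [Lp.norm_def, eLpNorm_int hp (Lp.memLp f), ENNReal.toReal_ofReal (by positivity),
    ← Real.rpow_mul h0, inv_mul_cancel₀ (by linarith), Real.rpow_one]

theorem uc_Lp [FiniteDimensional ℝ E] (hp : 1 < p) {η : ℝ} (hη : 0 < η) :
    ∃ K : ℝ, 0 ≤ K ∧ ∀ f g : Lp E (ENNReal.ofReal p) μ, ‖f - g‖ ^ p ≤ η * (‖f‖ ^ p + ‖g‖ ^ p) +
      K * ((‖f‖ ^ p + ‖g‖ ^ p) / 2 - ‖(1 / 2 : ℝ) • (f + g)‖ ^ p) := by
  obtain ⟨K, hK, h⟩ := pointwise_uc (E := E) hp hη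
  refine ⟨K, hK, fun f g => ?_⟩
  have ha : Integrable (fun x => ‖f x‖ ^ p) μ := memLp_int hp (Lp.memLp f)
  have hb : Integrable (fun x => ‖g x‖ ^ p) μ := memLp_int hp (Lp.memLp g)
  have hc : Integrable (fun x => ‖(1 / 2 : ℝ) • (f x + g x)‖ ^ p) μ :=
    memLp_int hp (((Lp.memLp f).add (Lp.memLp g)).const_smul (1 / 2 : ℝ))
  have hd : Integrable (fun x => ‖f x - g x‖ ^ p) μ :=
    memLp_int hp ((Lp.memLp f).sub (Lp.memLp g))
  have e1 : ‖f - g‖ ^ p = ∫ x, ‖f x - g x‖ ^ p ∂μ := by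
    rw [Lp_norm_rpow hp]
    refine integral_congr_ae ?_
    filter_upwards [Lp.coeFn_sub f g] with x hx
    rw [hx, Pi.sub_apply]
  have e2 : ‖(1 / 2 : ℝ) • (f + g)‖ ^ p = ∫ x, ‖(1 / 2 : ℝ) • (f x + g x)‖ ^ p ∂μ := by
    rw [Lp_norm_rpow hp]
    refine integral_congr_ae ?_
    filter_upwards [Lp.coeFn_smul (1 / 2 : ℝ) (f + g), Lp.coeFn_add f g] with x hx hx'
    rw [hx, Pi.smul_apply, hx', Pi.add_apply]
  rw [e1, e2, Lp_norm_rpow hp, Lp_norm_rpow hp]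
  have hR : Integrable (fun x => η * (‖f x‖ ^ p + ‖g x‖ ^ p) +
      K * ((‖f x‖ ^ p + ‖g x‖ ^ p) / 2 - ‖(1 / 2 : ℝ) • (f x + g x)‖ ^ p)) μ :=
    ((ha.add hb).const_mul η).add ((((ha.add hb).div_const 2).sub hc).const_mul K)
  calc ∫ x, ‖f x - g x‖ ^ p ∂μ ≤ ∫ x, (η * (‖f x‖ ^ p + ‖g x‖ ^ p) +
      K * ((‖f x‖ ^ p + ‖g x‖ ^ p) / 2 - ‖(1 / 2 : ℝ) • (f x + g x)‖ ^ p)) ∂μ :=
        integral_mono hd hR fun x => h (f x) (g x)
    _ = _ := by
      have s1 : Integrable (fun x => η * (‖f x‖ ^ p + ‖g x‖ ^ p)) μ := (ha.add hb).const_mul η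
      have s2 : Integrable (fun x => K * ((‖f x‖ ^ p + ‖g x‖ ^ p) / 2 -
        ‖(1 / 2 : ℝ) • (f x + g x)‖ ^ p)) μ := (((ha.add hb).div_const 2).sub hc).const_mul K
      have s3 : Integrable (fun x => (‖f x‖ ^ p + ‖g x‖ ^ p) / 2) μ := (ha.add hb).div_const 2
      rw [integral_add s1 s2, integral_const_mul, integral_const_mul, integral_sub s3 hc,
        integral_div, integral_add ha hb]

/-- Existence of a minimiser. -/
theorem exists_min [FiniteDimensional ℝ E] [Fact (1 ≤ ENNReal.ofReal p)] (hp : 1 < p)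
    (H : Submodule ℝ (Lp ℝ (ENNReal.ofReal p) μ × Lp E (ENNReal.ofReal p) μ))
    (hH : IsClosed (H : Set (Lp ℝ (ENNReal.ofReal p) μ × Lp E (ENNReal.ofReal p) μ)))
    {C : ℝ} (hC0 : 0 ≤ C) (hC : ∀ z ∈ H, ‖z.1‖ ≤ C * ‖z.2‖)
    (ℓ : Lp ℝ (ENNReal.ofReal p) μ →L[ℝ] ℝ) :
    ∃ z ∈ H, ∀ w ∈ H, ‖z.2‖ ^ p / p - ℓ z.1 ≤ ‖w.2‖ ^ p / p - ℓ w.1 := by
  have hp0 : 0 < p := by linarith
  set J : Lp ℝ (ENNReal.ofReal p) μ × Lp E (ENNReal.ofReal p) μ → ℝ :=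
    fun w => ‖w.2‖ ^ p / p - ℓ w.1 with hJ
  have hJc : Continuous J := by
    rw [hJ]
    exact (((continuous_norm.comp continuous_snd).rpow_const fun _ => Or.inr hp0.le).div_const
      p).sub (ℓ.continuous.comp continuous_fst)
  set c : ℝ := ‖ℓ‖ * C with hc
  have hc0 : 0 ≤ c := by positivity
  have hℓ : ∀ w ∈ H, ℓ w.1 ≤ c * ‖w.2‖ := fun w hw => by
    calc ℓ w.1 ≤ ‖ℓ w.1‖ := le_abs_self _
      _ ≤ ‖ℓ‖ * ‖w.1‖ := ℓ.le_opNorm _
      _ ≤ ‖ℓ‖ * (C * ‖w.2‖) := by gcongr; exact hC w hw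
      _ = c * ‖w.2‖ := by rw [hc]; ring
  have hpq : p.HolderConjugate (p / (p - 1)) := Real.HolderConjugate.conjExponent hp
  set q : ℝ := p / (p - 1) with hq
  set B : ℝ := (c * 2 ^ p⁻¹) ^ q / q with hB
  have hyoung : ∀ y : ℝ, 0 ≤ y → c * y ≤ y ^ p / (2 * p) + B := by
    intro y hy
    have h1 := Real.young_inequality_of_nonneg (a := y * (2 ^ p⁻¹)⁻¹) (b := c * 2 ^ p⁻¹)
      (by positivity) (by positivity) hpq
    have h2 : (0 : ℝ) < 2 ^ p⁻¹ := by positivity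
    have h3 : y * (2 ^ p⁻¹)⁻¹ * (c * 2 ^ p⁻¹) = c * y := by field_simp
    have h4 : (y * (2 ^ p⁻¹)⁻¹) ^ p = y ^ p / 2 := by
      rw [Real.mul_rpow hy (by positivity), Real.inv_rpow h2.le, ← Real.rpow_mul (by norm_num),
        inv_mul_cancel₀ hp0.ne', Real.rpow_one]
      ring
    rw [h3, h4] at h1
    calc c * y ≤ y ^ p / 2 / p + B := h1
      _ = y ^ p / (2 * p) + B := by rw [div_div]
  have hlow : ∀ w ∈ H, ‖w.2‖ ^ p / (2 * p) - B ≤ J w := by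
    intro w hw
    have h1 := hℓ w hw
    have h2 := hyoung ‖w.2‖ (norm_nonneg _)
    have h3 : ‖w.2‖ ^ p / p = ‖w.2‖ ^ p / (2 * p) + ‖w.2‖ ^ p / (2 * p) := by
      field_simp; ring
    rw [hJ]
    show ‖w.2‖ ^ p / (2 * p) - B ≤ ‖w.2‖ ^ p / p - ℓ w.1
    rw [h3]; linarith
  set S : Set ℝ := J '' (H : Set _) with hS
  have hSne : S.Nonempty := ⟨J 0, ⟨0, H.zero_mem, rfl⟩⟩
  have hSbd : BddBelow S := by
    refine ⟨-B, ?_⟩
    rintro _ ⟨w, hw, rfl⟩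
    have := hlow w hw
    have h2 : 0 ≤ ‖w.2‖ ^ p / (2 * p) := by positivity
    linarith
  set m : ℝ := sInf S with hm
  have hm1 : ∀ w ∈ H, m ≤ J w := fun w hw => csInf_le hSbd ⟨w, hw, rfl⟩
  have hseq : ∀ n : ℕ, ∃ z ∈ H, J z < m + 1 / ((n : ℝ) + 1) := by
    intro n
    have h1 : m < m + 1 / ((n : ℝ) + 1) := by
      have : 0 < 1 / ((n : ℝ) + 1) := by positivity
      linarith
    obtain ⟨_, ⟨z, hz, rfl⟩, h2⟩ := exists_lt_of_csInf_lt hSne h1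
    exact ⟨z, hz, h2⟩
  choose z hzH hzJ using hseq
  set M : ℝ := 2 * p * (|m| + 1 + |B|) with hM
  have hM0 : 0 < M := by positivity
  have hzM : ∀ n, ‖(z n).2‖ ^ p ≤ M := by
    intro n
    have h1 := hlow _ (hzH n)
    have h2 := hzJ n
    have h3 : 1 / ((n : ℝ) + 1) ≤ 1 := by
      rw [div_le_one (by positivity)]; linarith [Nat.cast_nonneg (α := ℝ) n]
    have h4 : ‖(z n).2‖ ^ p / (2 * p) ≤ |m| + 1 + |B| := by
      linarith [le_abs_self m, le_abs_self B]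
    rw [div_le_iff₀ (by positivity)] at h4
    rw [hM]; linarith
  have hgap : ∀ N j k : ℕ, N ≤ j → N ≤ k →
      (‖(z j).2‖ ^ p + ‖(z k).2‖ ^ p) / 2 - ‖(1 / 2 : ℝ) • ((z j).2 + (z k).2)‖ ^ p
        ≤ p * (1 / ((N : ℝ) + 1)) := by
    intro N j k hj hk
    have h1 := hzJ j
    have h2 := hzJ k
    have h3 := hm1 ((1 / 2 : ℝ) • (z j + z k)) (H.smul_mem _ (H.add_mem (hzH j) (hzH k)))
    have h4 : 1 / ((j : ℝ) + 1) ≤ 1 / ((N : ℝ) + 1) :=
      one_div_le_one_div_of_le (by positivity) (by exact_mod_cast Nat.succ_le_succ hj)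
    have h5 : 1 / ((k : ℝ) + 1) ≤ 1 / ((N : ℝ) + 1) :=
      one_div_le_one_div_of_le (by positivity) (by exact_mod_cast Nat.succ_le_succ hk)
    have e : ℓ ((1 / 2 : ℝ) • (z j + z k)).1 = (ℓ (z j).1 + ℓ (z k).1) / 2 := by
      rw [Prod.smul_fst, Prod.fst_add, map_smul, map_add, smul_eq_mul]; ring
    rw [hJ] at h1 h2 h3
    simp only [] at h1 h2 h3
    rw [e, Prod.smul_snd, Prod.snd_add] at h3
    have h6 : ‖(1 / 2 : ℝ) • ((z j).2 + (z k).2)‖ ^ p / p ≥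
        m + (ℓ (z j).1 + ℓ (z k).1) / 2 := by linarith
    have h7 : ((‖(z j).2‖ ^ p + ‖(z k).2‖ ^ p) / 2 -
        ‖(1 / 2 : ℝ) • ((z j).2 + (z k).2)‖ ^ p) / p ≤ 1 / ((N : ℝ) + 1) := by
      have : ((‖(z j).2‖ ^ p + ‖(z k).2‖ ^ p) / 2 -
        ‖(1 / 2 : ℝ) • ((z j).2 + (z k).2)‖ ^ p) / p = (‖(z j).2‖ ^ p / p + ‖(z k).2‖ ^ p / p) / 2
          - ‖(1 / 2 : ℝ) • ((z j).2 + (z k).2)‖ ^ p / p := by ring
      rw [this]; linarith
    rw [div_le_iff₀ hp0] at h7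
    linarith
  have hcau2 : CauchySeq fun n => (z n).2 := by
    rw [Metric.cauchySeq_iff]
    intro ε hε
    have hεp : 0 < ε ^ p := by positivity
    obtain ⟨K, hK, huc⟩ := uc_Lp (μ := μ) (E := E) hp (η := ε ^ p / (4 * M + 1)) (by positivity)
    obtain ⟨N, hN⟩ := exists_nat_gt (2 * K * p / ε ^ p)
    refine ⟨N, fun j hj k hk => ?_⟩
    rw [dist_eq_norm]
    have h1 := huc (z j).2 (z k).2
    have h2 := hgap N j k hj hk
    have h3 : ε ^ p / (4 * M + 1) * (‖(z j).2‖ ^ p + ‖(z k).2‖ ^ p) < ε ^ p / 2 := by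
      have : ‖(z j).2‖ ^ p + ‖(z k).2‖ ^ p ≤ 2 * M := by linarith [hzM j, hzM k]
      calc ε ^ p / (4 * M + 1) * (‖(z j).2‖ ^ p + ‖(z k).2‖ ^ p)
          ≤ ε ^ p / (4 * M + 1) * (2 * M) := by gcongr
        _ < ε ^ p / 2 := by
          rw [div_mul_eq_mul_div, div_lt_div_iff₀ (by positivity) (by norm_num)]
          nlinarith
    have h4 : K * ((‖(z j).2‖ ^ p + ‖(z k).2‖ ^ p) / 2 -
        ‖(1 / 2 : ℝ) • ((z j).2 + (z k).2)‖ ^ p) ≤ ε ^ p / 2 := by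
      calc _ ≤ K * (p * (1 / ((N : ℝ) + 1))) := by gcongr
        _ ≤ ε ^ p / 2 := by
          rw [div_lt_iff₀ hεp] at hN
          have : K * (p * (1 / ((N : ℝ) + 1))) = K * p / ((N : ℝ) + 1) := by ring
          rw [this, div_le_div_iff₀ (by positivity) (by norm_num)]
          nlinarith
    have h5 : ‖(z j).2 - (z k).2‖ ^ p < ε ^ p := by linarith
    exact (Real.rpow_lt_rpow_iff (norm_nonneg _) hε.le hp0).mp h5
  have hcau1 : CauchySeq fun n => (z n).1 := by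
    rw [Metric.cauchySeq_iff] at hcau2 ⊢
    intro ε hε
    obtain ⟨N, hN⟩ := hcau2 (ε / (C + 1)) (by positivity)
    refine ⟨N, fun j hj k hk => ?_⟩
    have h1 := hN j hj k hk
    have h2 := hC (z j - z k) (H.sub_mem (hzH j) (hzH k))
    rw [dist_eq_norm] at h1 ⊢
    rw [Prod.fst_sub, Prod.snd_sub] at h2
    rw [lt_div_iff₀ (by positivity)] at h1
    nlinarith [norm_nonneg ((z j).2 - (z k).2)]
  obtain ⟨z2, hz2⟩ := cauchySeq_tendsto_of_complete hcau2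
  obtain ⟨z1, hz1⟩ := cauchySeq_tendsto_of_complete hcau1
  have hlim : Tendsto z atTop (𝓝 (z1, z2)) := by
    have := hz1.prodMk_nhds hz2
    exact this
  refine ⟨(z1, z2), hH.mem_of_tendsto hlim (Eventually.of_forall hzH), fun w hw => ?_⟩
  have h1 : Tendsto (fun n => J (z n)) atTop (𝓝 (J (z1, z2))) :=
    (hJc.tendsto (z1, z2)).comp hlim
  have h2 : Tendsto (fun n : ℕ => m + 1 / ((n : ℝ) + 1)) atTop (𝓝 (m + 0)) :=
    tendsto_const_nhds.add tendsto_one_div_add_atTop_nhds_zero_nat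
  have h3 : J (z1, z2) ≤ m + 0 := le_of_tendsto_of_tendsto' h1 h2 fun n => (hzJ n).le
  have h4 := hm1 w hw
  show J (z1, z2) ≤ J w
  linarith

/-- The Euler–Lagrange equation. -/
theorem exists_EL [FiniteDimensional ℝ E] [Fact (1 ≤ ENNReal.ofReal p)] (hp : 1 < p)
    (H : Submodule ℝ (Lp ℝ (ENNReal.ofReal p) μ × Lp E (ENNReal.ofReal p) μ))
    (hH : IsClosed (H : Set (Lp ℝ (ENNReal.ofReal p) μ × Lp E (ENNReal.ofReal p) μ)))
    {C : ℝ} (hC0 : 0 ≤ C) (hC : ∀ z ∈ H, ‖z.1‖ ≤ C * ‖z.2‖)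
    (ℓ : Lp ℝ (ENNReal.ofReal p) μ →L[ℝ] ℝ) :
    ∃ z ∈ H, ∀ w ∈ H, ∫ x, ⟪vA p (z.2 x), w.2 x⟫ ∂μ = ℓ w.1 := by
  have hp0 : 0 < p := by linarith
  obtain ⟨z, hz, hmin⟩ := exists_min hp H hH hC0 hC ℓ
  refine ⟨z, hz, ?_⟩
  have key : ∀ w ∈ H, ℓ w.1 ≤ ∫ x, ⟪vA p (z.2 x), w.2 x⟫ ∂μ := by
    intro w hw
    set t : ℕ → ℝ := fun n => 1 / ((n : ℝ) + 1) with ht
    have ht0 : ∀ n, 0 < t n := fun n => by rw [ht]; positivity
    have ht1 : ∀ n, t n ≤ 1 := fun n => by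
      rw [ht]; simp only []
      rw [div_le_one (by positivity)]; linarith [Nat.cast_nonneg (α := ℝ) n]
    have htl : Tendsto t atTop (𝓝 0) := tendsto_one_div_add_atTop_nhds_zero_nat
    have hbI : Integrable (fun x => ‖‖z.2 x‖ + ‖w.2 x‖‖ ^ p) μ :=
      memLp_int hp ((Lp.memLp z.2).norm.add (Lp.memLp w.2).norm)
    have hmeas : ∀ s : ℝ, AEStronglyMeasurable (fun x => ⟪vA p (z.2 x + s • w.2 x), w.2 x⟫) μ := by
      intro s
      have h1 : AEStronglyMeasurable (fun x => z.2 x + s • w.2 x) μ :=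
        (Lp.aestronglyMeasurable z.2).add ((Lp.aestronglyMeasurable w.2).const_smul s)
      exact ((vA_cont hp).comp_aestronglyMeasurable h1).inner (Lp.aestronglyMeasurable w.2)
    have hbd : ∀ s : ℝ, 0 ≤ s → s ≤ 1 → ∀ x, ‖⟪vA p (z.2 x + s • w.2 x), w.2 x⟫‖ ≤
        ‖‖z.2 x‖ + ‖w.2 x‖‖ ^ p := by
      intro s hs0 hs1 x
      rw [Real.norm_eq_abs, Real.norm_eq_abs, abs_of_nonneg (a := ‖z.2 x‖ + ‖w.2 x‖) (by positivity)]
      have h1 : ‖z.2 x + s • w.2 x‖ ≤ ‖z.2 x‖ + ‖w.2 x‖ := by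
        refine (norm_add_le _ _).trans ?_
        rw [norm_smul, Real.norm_eq_abs, abs_of_nonneg hs0]
        have : s * ‖w.2 x‖ ≤ 1 * ‖w.2 x‖ := by gcongr
        linarith
      have h2 : ‖w.2 x‖ ≤ ‖z.2 x‖ + ‖w.2 x‖ := by linarith [norm_nonneg (z.2 x)]
      calc |⟪vA p (z.2 x + s • w.2 x), w.2 x⟫| ≤ ‖z.2 x + s • w.2 x‖ ^ (p - 1) * ‖w.2 x‖ :=
            inner_vA_le hp _ _
        _ ≤ (‖z.2 x‖ + ‖w.2 x‖) ^ (p - 1) * (‖z.2 x‖ + ‖w.2 x‖) := by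
            gcongr
        _ = (‖z.2 x‖ + ‖w.2 x‖) ^ p := by
            rcases eq_or_lt_of_le (show 0 ≤ ‖z.2 x‖ + ‖w.2 x‖ by positivity) with h | h
            · rw [← h, mul_zero, Real.zero_rpow (by linarith)]
            · have : (‖z.2 x‖ + ‖w.2 x‖) ^ p =
                (‖z.2 x‖ + ‖w.2 x‖) ^ (p - 1) * (‖z.2 x‖ + ‖w.2 x‖) ^ (1 : ℝ) := by
                rw [← Real.rpow_add h]; congr 1; ring
              rw [this, Real.rpow_one]
    have hint : ∀ s : ℝ, 0 ≤ s → s ≤ 1 →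
        Integrable (fun x => ⟪vA p (z.2 x + s • w.2 x), w.2 x⟫) μ := fun s h0 h1 =>
      hbI.mono' (hmeas s) (Eventually.of_forall (hbd s h0 h1))
    have hn : ∀ n, ℓ w.1 ≤ ∫ x, ⟪vA p (z.2 x + t n • w.2 x), w.2 x⟫ ∂μ := by
      intro n
      have h1 := hmin (z + t n • w) (H.add_mem hz (H.smul_mem _ hw))
      have e1 : ℓ (z + t n • w).1 = ℓ z.1 + t n * ℓ w.1 := by
        rw [Prod.fst_add, Prod.smul_fst, map_add, map_smul, smul_eq_mul]
      rw [e1] at h1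
      have h2 : t n * ℓ w.1 * p ≤ ‖(z + t n • w).2‖ ^ p - ‖z.2‖ ^ p := by
        have : t n * ℓ w.1 ≤ (‖(z + t n • w).2‖ ^ p - ‖z.2‖ ^ p) / p := by
          rw [sub_div]; linarith
        rwa [le_div_iff₀ hp0] at this
      have hA : Integrable (fun x => ‖z.2 x + t n • w.2 x‖ ^ p) μ :=
        memLp_int hp ((Lp.memLp z.2).add ((Lp.memLp w.2).const_smul (t n)))
      have hB : Integrable (fun x => ‖z.2 x‖ ^ p) μ := memLp_int hp (Lp.memLp z.2)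
      have e2 : ‖(z + t n • w).2‖ ^ p = ∫ x, ‖z.2 x + t n • w.2 x‖ ^ p ∂μ := by
        rw [Lp_norm_rpow hp, Prod.snd_add, Prod.smul_snd]
        refine integral_congr_ae ?_
        filter_upwards [Lp.coeFn_smul (t n) w.2, Lp.coeFn_add z.2 (t n • w.2)] with x hx hx'
        rw [hx', Pi.add_apply, hx, Pi.smul_apply]
      rw [e2, Lp_norm_rpow hp, ← integral_sub hA hB] at h2
      have h3 : ∫ x, (‖z.2 x + t n • w.2 x‖ ^ p - ‖z.2 x‖ ^ p) ∂μ ≤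
          ∫ x, p * t n * ⟪vA p (z.2 x + t n • w.2 x), w.2 x⟫ ∂μ := by
        refine integral_mono (hA.sub hB) ((hint (t n) (ht0 n).le (ht1 n)).const_mul _) fun x => ?_
        have h4 := grad_ineq hp (z.2 x) (z.2 x + t n • w.2 x)
        have h5 : z.2 x - (z.2 x + t n • w.2 x) = (-t n) • w.2 x := by module
        rw [h5, real_inner_smul_right] at h4
        simp only []
        nlinarith
      rw [integral_const_mul] at h3
      have h6 : t n * p * ℓ w.1 ≤ t n * p * ∫ x, ⟪vA p (z.2 x + t n • w.2 x), w.2 x⟫ ∂μ := by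
        calc t n * p * ℓ w.1 = t n * ℓ w.1 * p := by ring
          _ ≤ _ := h2
          _ ≤ _ := h3
          _ = _ := by ring
      exact le_of_mul_le_mul_left h6 (mul_pos (ht0 n) hp0)
    have hconv : Tendsto (fun n => ∫ x, ⟪vA p (z.2 x + t n • w.2 x), w.2 x⟫ ∂μ) atTop
        (𝓝 (∫ x, ⟪vA p (z.2 x), w.2 x⟫ ∂μ)) := by
      refine tendsto_integral_of_dominated_convergence _ (fun n => hmeas (t n)) hbI
        (fun n => Eventually.of_forall (hbd (t n) (ht0 n).le (ht1 n))) (Eventually.of_forall ?_)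
      intro x
      have h1 : Tendsto (fun n => z.2 x + t n • w.2 x) atTop (𝓝 (z.2 x + (0 : ℝ) • w.2 x)) :=
        tendsto_const_nhds.add (htl.smul_const _)
      rw [zero_smul, add_zero] at h1
      exact (((vA_cont hp).tendsto _).comp h1).inner tendsto_const_nhds
    exact ge_of_tendsto' hconv hn
  intro w hw
  refine le_antisymm ?_ (key w hw)
  have h1 := key (-w) (H.neg_mem hw)
  have e1 : ∫ x, ⟪vA p (z.2 x), (-w).2 x⟫ ∂μ = - ∫ x, ⟪vA p (z.2 x), w.2 x⟫ ∂μ := by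
    rw [← integral_neg]
    refine integral_congr_ae ?_
    filter_upwards [Lp.coeFn_neg w.2] with x hx
    rw [Prod.snd_neg, hx, Pi.neg_apply, inner_neg_right]
  rw [e1, Prod.fst_neg, map_neg] at h1
  linarith

end Pool.Agent.X104.PS
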