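import Mathlib

/-!
Vector inequalities for the `p`-Laplacian.
-/

set_option autoImplicit false

noncomputable section

open Filter Topology Set
open scoped RealInnerProductSpace

namespace Pool.Agent.X104.PS

variable {E : Type*} [NormedAddCommGroup E] [InnerProductSpace ℝ E]

/-- the vector field `‖ξ‖^(p-2) ξ` -/
def vA (p : ℝ) (ξ : E) : E := ‖ξ‖ ^ (p - 2) • ξ

theorem norm_vA {p : ℝ} (hp : 1 < p) (ξ : E) : ‖vA p ξ‖ = ‖ξ‖ ^ (p - 1) := by
  unfold vA
  rcases eq_or_ne ξ 0 with rfl | h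
  · rw [smul_zero, norm_zero, Real.zero_rpow (by linarith)]
  · have h0 : 0 < ‖ξ‖ := norm_pos_iff.mpr h
    rw [norm_smul, Real.norm_eq_abs, abs_of_nonneg (by positivity)]
    have : ‖ξ‖ ^ (p - 1) = ‖ξ‖ ^ (p - 2) * ‖ξ‖ ^ (1 : ℝ) := by
      rw [← Real.rpow_add h0]; congr 1; ring
    rw [this, Real.rpow_one]

theorem inner_vA_self {p : ℝ} (hp : 1 < p) (ξ : E) : ⟪vA p ξ, ξ⟫ = ‖ξ‖ ^ p := by
  unfold vA
  rcases eq_or_ne ξ 0 with rfl | h
  · rw [inner_zero_right, norm_zero, Real.zero_rpow (by linarith)]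
  · have h0 : 0 < ‖ξ‖ := norm_pos_iff.mpr h
    rw [real_inner_smul_left, real_inner_self_eq_norm_sq]
    have : ‖ξ‖ ^ p = ‖ξ‖ ^ (p - 2) * ‖ξ‖ ^ (2 : ℝ) := by
      rw [← Real.rpow_add h0]; congr 1; ring
    rw [this, Real.rpow_two]

theorem inner_vA_le {p : ℝ} (hp : 1 < p) (ξ η : E) : |⟪vA p ξ, η⟫| ≤ ‖ξ‖ ^ (p - 1) * ‖η‖ := by
  refine (abs_real_inner_le_norm _ _).trans ?_
  rw [norm_vA hp]

theorem vA_cont {p : ℝ} (hp : 1 < p) : Continuous (vA p : E → E) := by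
  rw [continuous_iff_continuousAt]
  intro ξ
  rcases eq_or_ne ξ 0 with rfl | h
  · have h0 : vA p (0 : E) = 0 := by unfold vA; rw [smul_zero]
    rw [ContinuousAt, h0, tendsto_zero_iff_norm_tendsto_zero]
    have h1 : ∀ ξ : E, ‖vA p ξ‖ = ‖ξ‖ ^ (p - 1) := fun ξ => norm_vA hp ξ
    simp_rw [h1]
    have h2 : ContinuousAt (fun ξ : E => ‖ξ‖ ^ (p - 1)) 0 :=
      (continuous_norm.continuousAt).rpow_const (Or.inr (by linarith))
    have h3 := h2.tendsto
    rwa [norm_zero, Real.zero_rpow (by linarith)] at h3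
  · unfold vA
    exact ((continuous_norm.continuousAt).rpow_const (Or.inl (norm_ne_zero_iff.mpr h))).smul
      continuousAt_id

theorem vA_smul {p : ℝ} {c : ℝ} (hc : 0 < c) (ξ : E) : vA p (c • ξ) = c ^ (p - 1) • vA p ξ := by
  unfold vA
  rw [norm_smul, Real.norm_eq_abs, abs_of_pos hc, Real.mul_rpow hc.le (norm_nonneg _), smul_smul,
    smul_smul]
  congr 1
  have : c ^ (p - 1) = c ^ (p - 2) * c ^ (1 : ℝ) := by
    rw [← Real.rpow_add hc]; congr 1; ring
  rw [this, Real.rpow_one]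
  ring

/-- Gradient inequality. -/
theorem grad_ineq {p : ℝ} (hp : 1 < p) (a b : E) : p * ⟪vA p b, a - b⟫ ≤ ‖a‖ ^ p - ‖b‖ ^ p := by
  rw [inner_sub_right, inner_vA_self hp]
  have h1 : ⟪vA p b, a⟫ ≤ ‖b‖ ^ (p - 1) * ‖a‖ := (le_abs_self _).trans (inner_vA_le hp b a)
  have hpq : p.HolderConjugate (p / (p - 1)) := Real.HolderConjugate.conjExponent hp
  have h2 := Real.young_inequality_of_nonneg (norm_nonneg a)
    (Real.rpow_nonneg (norm_nonneg b) (p - 1)) hpq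
  have h3 : (‖b‖ ^ (p - 1)) ^ (p / (p - 1)) = ‖b‖ ^ p := by
    rw [← Real.rpow_mul (norm_nonneg b)]
    congr 1
    field_simp [show p - 1 ≠ 0 by linarith]
  rw [h3] at h2
  have h4 : ‖b‖ ^ p / (p / (p - 1)) = ‖b‖ ^ p * (p - 1) / p := by
    field_simp [show p - 1 ≠ 0 by linarith]
  rw [h4] at h2
  have hp0 : 0 < p := by linarith
  have h5 : p * (‖a‖ * ‖b‖ ^ (p - 1)) ≤ ‖a‖ ^ p + ‖b‖ ^ p * (p - 1) := by
    have := mul_le_mul_of_nonneg_left h2 hp0.le
    have h6 : p * (‖a‖ ^ p / p + ‖b‖ ^ p * (p - 1) / p) = ‖a‖ ^ p + ‖b‖ ^ p * (p - 1) := by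
      field_simp
    linarith
  nlinarith

/-- Strict convexity of `‖·‖^p`. -/
theorem strict_mid {p : ℝ} (hp : 1 < p) {a b : E} (hab : a ≠ b) :
    ‖(1 / 2 : ℝ) • (a + b)‖ ^ p < (‖a‖ ^ p + ‖b‖ ^ p) / 2 := by
  rcases eq_or_ne ‖a‖ ‖b‖ with h | h
  · have h1 : ‖(1 / 2 : ℝ) • a + (1 / 2 : ℝ) • b‖ < ‖a‖ :=
      norm_combo_lt_of_ne le_rfl h.symm.le hab (by norm_num) (by norm_num) (by norm_num)
    rw [← smul_add] at h1
    have h2 := Real.rpow_lt_rpow (norm_nonneg _) h1 (by linarith : 0 < p)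
    rw [← h]
    linarith
  · have h1 : ‖(1 / 2 : ℝ) • (a + b)‖ ≤ (1 / 2) * ‖a‖ + (1 / 2) * ‖b‖ := by
      rw [norm_smul, Real.norm_eq_abs, abs_of_pos (by norm_num : (0 : ℝ) < 1 / 2)]
      have := norm_add_le a b
      linarith
    have h2 := (strictConvexOn_rpow hp).2 (norm_nonneg a : ‖a‖ ∈ Ici (0 : ℝ))
      (norm_nonneg b : ‖b‖ ∈ Ici (0 : ℝ)) h (by norm_num : (0 : ℝ) < 1 / 2)
      (by norm_num : (0 : ℝ) < 1 / 2) (by norm_num)
    simp only [smul_eq_mul] at h2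
    have h3 := Real.rpow_le_rpow (norm_nonneg _) h1 (by linarith : 0 ≤ p)
    linarith

theorem mid_nonneg {p : ℝ} (hp : 1 < p) (a b : E) :
    0 ≤ (‖a‖ ^ p + ‖b‖ ^ p) / 2 - ‖(1 / 2 : ℝ) • (a + b)‖ ^ p := by
  rcases eq_or_ne a b with rfl | h
  · have : (1 / 2 : ℝ) • (a + a) = a := by rw [← two_smul ℝ, smul_smul]; norm_num
    rw [this]; linarith
  · have := strict_mid hp h
    linarith

/-- Strict monotonicity of `vA`. -/
theorem strict_mono_vA {p : ℝ} (hp : 1 < p) {a b : E} (hab : a ≠ b) :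
    0 < ⟪vA p a - vA p b, a - b⟫ := by
  set c : E := (1 / 2 : ℝ) • (a + b) with hc
  have h1 := grad_ineq hp c b
  have h2 := grad_ineq hp c a
  have h3 := strict_mid hp hab
  have e1 : c - b = (1 / 2 : ℝ) • (a - b) := by rw [hc]; module
  have e2 : c - a = (-(1 / 2) : ℝ) • (a - b) := by rw [hc]; module
  rw [e1, real_inner_smul_right] at h1
  rw [e2, real_inner_smul_right] at h2
  rw [inner_sub_left]
  have hp0 : 0 < p := by linarith
  have h4 : 0 < p * (⟪vA p a, a - b⟫ - ⟪vA p b, a - b⟫) := by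
    rw [← hc] at h3
    nlinarith
  exact (mul_pos_iff_of_pos_left hp0).mp h4

theorem mono_vA {p : ℝ} (hp : 1 < p) (a b : E) : 0 ≤ ⟪vA p a - vA p b, a - b⟫ := by
  rcases eq_or_ne a b with rfl | h
  · rw [sub_self, sub_self, inner_zero_left]
  · exact (strict_mono_vA hp h).le

/-- Uniform convexity, pointwise form. -/
theorem pointwise_uc [FiniteDimensional ℝ E] {p : ℝ} (hp : 1 < p) {η : ℝ} (hη : 0 < η) :
    ∃ K : ℝ, 0 ≤ K ∧ ∀ a b : E, ‖a - b‖ ^ p ≤ η * (‖a‖ ^ p + ‖b‖ ^ p) +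
      K * ((‖a‖ ^ p + ‖b‖ ^ p) / 2 - ‖(1 / 2 : ℝ) • (a + b)‖ ^ p) := by
  have hp0 : 0 < p := by linarith
  have hcn : Continuous fun x : E => ‖x‖ ^ p :=
    continuous_norm.rpow_const fun _ => Or.inr hp0.le
  set D : E × E → ℝ := fun q => (‖q.1‖ ^ p + ‖q.2‖ ^ p) / 2 - ‖(1 / 2 : ℝ) • (q.1 + q.2)‖ ^ p
    with hD
  have hDc : Continuous D := by
    have h1 : Continuous fun q : E × E => ‖q.1‖ ^ p := hcn.comp continuous_fst
    have h2 : Continuous fun q : E × E => ‖q.2‖ ^ p := hcn.comp continuous_snd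
    have h3 : Continuous fun q : E × E => ‖(1 / 2 : ℝ) • (q.1 + q.2)‖ ^ p :=
      hcn.comp (by fun_prop)
    exact ((h1.add h2).div_const 2).sub h3
  set S : Set (E × E) := {q | ‖q.1‖ ^ p + ‖q.2‖ ^ p = 1 ∧ η ≤ ‖q.1 - q.2‖ ^ p} with hS
  have hle1 : ∀ a b : E, ‖a‖ ^ p + ‖b‖ ^ p = 1 → ‖a‖ ≤ 1 ∧ ‖b‖ ≤ 1 := by
    intro a b h
    have ha : 0 ≤ ‖a‖ ^ p := by positivity
    have hb : 0 ≤ ‖b‖ ^ p := by positivity
    constructor
    · by_contra hcon
      push Not at hcon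
      have := Real.one_lt_rpow hcon hp0
      linarith
    · by_contra hcon
      push Not at hcon
      have := Real.one_lt_rpow hcon hp0
      linarith
  have hSc : IsCompact S := by
    refine Metric.isCompact_of_isClosed_isBounded ?_ ?_
    · refine IsClosed.inter ?_ ?_
      · exact isClosed_eq ((hcn.comp continuous_fst).add (hcn.comp continuous_snd))
          continuous_const
      · exact isClosed_le continuous_const (hcn.comp (continuous_fst.sub continuous_snd))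
    · rw [isBounded_iff_forall_norm_le]
      refine ⟨1, ?_⟩
      rintro ⟨a, b⟩ ⟨h1, _⟩
      obtain ⟨ha, hb⟩ := hle1 a b h1
      exact max_le ha hb
  -- the inequality on the unit sphere
  obtain ⟨K, hK, hKs⟩ : ∃ K : ℝ, 0 ≤ K ∧ ∀ a b : E, ‖a‖ ^ p + ‖b‖ ^ p = 1 →
      ‖a - b‖ ^ p ≤ η + K * D (a, b) := by
    rcases S.eq_empty_or_nonempty with he | hne
    · refine ⟨0, le_rfl, fun a b h => ?_⟩
      rw [zero_mul, add_zero]
      by_contra hcon
      push Not at hcon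
      have : (a, b) ∈ S := ⟨h, hcon.le⟩
      rw [he] at this
      exact this
    · obtain ⟨q, hq, hmin⟩ := hSc.exists_isMinOn hne hDc.continuousOn
      have hqne : q.1 ≠ q.2 := by
        intro h
        have h1 := hq.2
        rw [h, sub_self, norm_zero, Real.zero_rpow hp0.ne'] at h1
        linarith
      have hm : 0 < D q := by
        have := strict_mid hp hqne
        simp only [hD]
        linarith
      refine ⟨2 ^ p / D q, by positivity, fun a b h => ?_⟩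
      rcases lt_or_ge (‖a - b‖ ^ p) η with h1 | h1
      · have h2 : 0 ≤ D (a, b) := mid_nonneg hp a b
        have : 0 ≤ 2 ^ p / D q * D (a, b) := by positivity
        linarith
      · have h2 : D q ≤ D (a, b) := hmin ⟨h, h1⟩
        obtain ⟨ha, hb⟩ := hle1 a b h
        have h3 : ‖a - b‖ ^ p ≤ 2 ^ p := by
          refine Real.rpow_le_rpow (norm_nonneg _) ?_ hp0.le
          have := norm_sub_le a b
          linarith
        have h4 : (2 : ℝ) ^ p ≤ 2 ^ p / D q * D (a, b) := by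
          rw [div_mul_eq_mul_div, le_div_iff₀ hm]
          have : (0 : ℝ) < 2 ^ p := by positivity
          nlinarith
        linarith
  refine ⟨K, hK, fun a b => ?_⟩
  rcases eq_or_lt_of_le (show 0 ≤ ‖a‖ ^ p + ‖b‖ ^ p by positivity) with h0 | h0
  · have ha0 : ‖a‖ ^ p = 0 := by
      have h1 : 0 ≤ ‖a‖ ^ p := by positivity
      have h2 : 0 ≤ ‖b‖ ^ p := by positivity
      linarith
    have hb0 : ‖b‖ ^ p = 0 := by
      have h1 : 0 ≤ ‖a‖ ^ p := by positivity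
      linarith
    have ha : a = 0 := by
      rw [Real.rpow_eq_zero (norm_nonneg _) hp0.ne'] at ha0
      exact norm_eq_zero.mp ha0
    have hb : b = 0 := by
      rw [Real.rpow_eq_zero (norm_nonneg _) hp0.ne'] at hb0
      exact norm_eq_zero.mp hb0
    rw [ha, hb]
    simp [Real.zero_rpow hp0.ne']
  · set s : ℝ := ‖a‖ ^ p + ‖b‖ ^ p with hs
    set t : ℝ := s ^ (-(1 / p)) with ht
    have ht0 : 0 < t := by positivity
    have htp : t ^ p = s⁻¹ := by
      rw [ht, ← Real.rpow_mul h0.le]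
      have : -(1 / p) * p = -1 := by field_simp
      rw [this, Real.rpow_neg_one]
    have hsc : ∀ x : E, ‖t • x‖ ^ p = s⁻¹ * ‖x‖ ^ p := by
      intro x
      rw [norm_smul, Real.norm_eq_abs, abs_of_pos ht0, Real.mul_rpow ht0.le (norm_nonneg _), htp]
    have h1 : ‖t • a‖ ^ p + ‖t • b‖ ^ p = 1 := by
      rw [hsc, hsc, ← mul_add, ← hs, inv_mul_cancel₀ h0.ne']
    have h2 := hKs (t • a) (t • b) h1
    simp only [hD] at h2
    rw [h1, ← smul_sub, hsc, ← smul_add, smul_comm, hsc] at h2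
    have h3 := mul_le_mul_of_nonneg_left h2 h0.le
    have h4 : s * (s⁻¹ * ‖a - b‖ ^ p) = ‖a - b‖ ^ p := by
      rw [← mul_assoc, mul_inv_cancel₀ h0.ne', one_mul]
    rw [h4] at h3
    have h5 : s * (η + K * (1 / 2 - s⁻¹ * ‖(1 / 2 : ℝ) • (a + b)‖ ^ p)) =
        η * s + K * (s / 2 - ‖(1 / 2 : ℝ) • (a + b)‖ ^ p) := by
      field_simp
    rw [h5] at h3
    exact h3

end Pool.Agent.X104.PS
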