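import Pool.Agent.X104.PS.Space

/-!
Maximally singular solutions of the Dirichlet problem for the `p`-Laplacian.
-/

set_option autoImplicit false

noncomputable section

open Filter Topology Set MeasureTheory
open scoped RealInnerProductSpace ENNReal ContDiff

namespace Pool.Agent.X104.PS

variable {p : ℝ}

/-! ### the auxiliary smooth function -/

def gg (t : ℝ) : ℝ := ∫ s in (0 : ℝ)..t, Real.smoothTransition s

theorem sT_cont : Continuous Real.smoothTransition := Real.smoothTransition.continuous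

theorem gg_hasDeriv (t : ℝ) : HasDerivAt gg (Real.smoothTransition t) t :=
  intervalIntegral.integral_hasDerivAt_right (sT_cont.intervalIntegrable _ _)
    (sT_cont.stronglyMeasurableAtFilter _ _) sT_cont.continuousAt

theorem gg_deriv : deriv gg = Real.smoothTransition := funext fun t => (gg_hasDeriv t).deriv

theorem gg_smooth : ContDiff ℝ ∞ gg := by
  rw [contDiff_infty_iff_deriv, gg_deriv]
  exact ⟨fun t => (gg_hasDeriv t).differentiableAt, Real.smoothTransition.contDiff⟩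

theorem gg_zero : gg 0 = 0 := by rw [gg, intervalIntegral.integral_same]

theorem gg_pos {t : ℝ} (ht : 0 < t) : 0 < gg t :=
  intervalIntegral.intervalIntegral_pos_of_pos_on (sT_cont.intervalIntegrable _ _)
    (fun _ hx => Real.smoothTransition.pos_of_pos hx.1) ht

theorem gg_nonpos {t : ℝ} (ht : t ≤ 0) : gg t = 0 := by
  rw [gg]
  have : EqOn Real.smoothTransition (fun _ => (0 : ℝ)) (uIcc 0 t) := by
    intro x hx
    rw [uIcc_of_ge ht] at hx
    exact Real.smoothTransition.zero_of_nonpos hx.2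
  rw [intervalIntegral.integral_congr this, intervalIntegral.integral_zero]

theorem gg_nonneg (t : ℝ) : 0 ≤ gg t := by
  rcases le_or_gt t 0 with h | h
  · rw [gg_nonpos h]
  · exact (gg_pos h).le

theorem gg_deriv_le (t : ℝ) : |deriv gg t| ≤ 1 := by
  rw [gg_deriv, abs_of_nonneg (Real.smoothTransition.nonneg t)]
  exact Real.smoothTransition.le_one t

/-! ### exponents and pairings -/

theorem conj_inst (hp : 1 < p) :
    ENNReal.HolderConjugate (ENNReal.ofReal (p / (p - 1))) (ENNReal.ofReal p) :=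
  (Real.HolderConjugate.conjExponent hp).symm.ennrealOfReal

theorem fact_P (hp : 1 < p) : Fact (1 ≤ ENNReal.ofReal p) :=
  ⟨by rw [← ENNReal.ofReal_one]; exact ENNReal.ofReal_le_ofReal hp.le⟩

theorem fact_Q (hp : 1 < p) : Fact (1 ≤ ENNReal.ofReal (p / (p - 1))) := by
  refine ⟨?_⟩
  rw [← ENNReal.ofReal_one]
  refine ENNReal.ofReal_le_ofReal ?_
  rw [le_div_iff₀ (by linarith)]; linarith

theorem memLp_vA {α : Type*} [MeasurableSpace α] {μ : Measure α} {E : Type*}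
    [NormedAddCommGroup E] [InnerProductSpace ℝ E] (hp : 1 < p) {G : α → E}
    (hG : MemLp G (ENNReal.ofReal p) μ) :
    MemLp (fun x => vA p (G x)) (ENNReal.ofReal (p / (p - 1))) μ := by
  have hp1 : 0 < p - 1 := by linarith
  have h1 := hG.norm_rpow_div (ENNReal.ofReal (p - 1))
  rw [← ENNReal.ofReal_div_of_pos hp1, ENNReal.toReal_ofReal hp1.le] at h1
  refine h1.of_le ((vA_cont hp).comp_aestronglyMeasurable hG.aestronglyMeasurable)
    (Eventually.of_forall fun x => ?_)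
  rw [norm_vA hp, Real.norm_eq_abs, abs_of_nonneg (by positivity)]

theorem int_inner {α : Type*} [MeasurableSpace α] {μ : Measure α} {E : Type*}
    [NormedAddCommGroup E] [InnerProductSpace ℝ E] (hp : 1 < p) {A W : α → E}
    (hA : MemLp A (ENNReal.ofReal (p / (p - 1))) μ) (hW : MemLp W (ENNReal.ofReal p) μ) :
    Integrable (fun x => ⟪A x, W x⟫) μ := by
  have := conj_inst hp
  have h1 : Integrable (fun x => ‖A x‖ * ‖W x‖) μ := hA.norm.integrable_mul hW.norm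
  exact h1.mono' (hA.aestronglyMeasurable.inner hW.aestronglyMeasurable)
    (Eventually.of_forall fun x => norm_inner_le_norm _ _)

theorem exists_pair {α : Type*} [MeasurableSpace α] {μ : Measure α} {E : Type*}
    [NormedAddCommGroup E] [InnerProductSpace ℝ E] (hp : 1 < p)
    [Fact (1 ≤ ENNReal.ofReal p)] {A : α → E}
    (hA : MemLp A (ENNReal.ofReal (p / (p - 1))) μ) :
    ∃ L : Lp E (ENNReal.ofReal p) μ →L[ℝ] ℝ, ∀ f, L f = ∫ x, ⟪A x, f x⟫ ∂μ := by
  have := conj_inst hp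
  have := fact_Q hp
  refine ⟨(innerSL ℝ (E := E) : E →L[ℝ] E →L[ℝ] ℝ).lpPairing μ (ENNReal.ofReal (p / (p - 1)))
    (ENNReal.ofReal p) (hA.toLp A), fun f => ?_⟩
  rw [ContinuousLinearMap.lpPairing_eq_integral]
  refine integral_congr_ae ?_
  filter_upwards [hA.coeFn_toLp] with x hx
  rw [hx]; rfl

theorem real_inner_mul (a b : ℝ) : ⟪a, b⟫ = a * b := by
  rw [real_inner_comm]; rfl

variable {N : ℕ} {Ω : Set (Eu N)}

theorem ext_EL (hp : 1 < p) [Fact (1 ≤ ENNReal.ofReal p)] {A : Eu N → Eu N} {F : Eu N → ℝ}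
    (hA : MemLp A (ENNReal.ofReal (p / (p - 1))) (volume.restrict Ω))
    (hF : MemLp F (ENNReal.ofReal (p / (p - 1))) (volume.restrict Ω))
    (h : ∀ φ, IsTest Ω φ → ∫ x in Ω, ⟪A x, gradient φ x⟫ = ∫ x in Ω, F x * φ x)
    {w : Lp ℝ (ENNReal.ofReal p) (volume.restrict Ω) ×
      Lp (Eu N) (ENNReal.ofReal p) (volume.restrict Ω)} (hw : w ∈ HH Ω p) :
    ∫ x in Ω, ⟪A x, w.2 x⟫ = ∫ x in Ω, F x * w.1 x := by
  obtain ⟨L2, hL2⟩ := exists_pair hp hA
  obtain ⟨L1, hL1⟩ := exists_pair hp hF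
  have h1 := HH_induction (S := {w | L2 w.2 = L1 w.1})
    (isClosed_eq (L2.continuous.comp continuous_snd) (L1.continuous.comp continuous_fst)) ?_ hw
  · have h2 : L2 w.2 = L1 w.1 := h1
    rw [hL2, hL1] at h2
    rw [h2]
    exact integral_congr_ae (Eventually.of_forall fun x => real_inner_mul _ _)
  · rintro z ⟨φ, hφ, e1, e2⟩
    show L2 z.2 = L1 z.1
    rw [hL2, hL1]
    have h3 : ∫ x in Ω, ⟪A x, z.2 x⟫ = ∫ x in Ω, ⟪A x, gradient φ x⟫ := by
      refine integral_congr_ae ?_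
      filter_upwards [e2] with x hx
      rw [hx]
    have h4 : ∫ x in Ω, ⟪F x, z.1 x⟫ = ∫ x in Ω, F x * φ x := by
      refine integral_congr_ae ?_
      filter_upwards [e1] with x hx
      rw [hx, real_inner_mul]
    rw [h3, h4, h φ hφ]

/-- Weak comparison principle. -/
theorem comparison (hN : 0 < N) (hb : Bornology.IsBounded Ω) (hp : 1 < p)
    [Fact (1 ≤ ENNReal.ofReal p)]
    {z1 z2 : Lp ℝ (ENNReal.ofReal p) (volume.restrict Ω) ×
      Lp (Eu N) (ENNReal.ofReal p) (volume.restrict Ω)} (hz1 : z1 ∈ HH Ω p) (hz2 : z2 ∈ HH Ω p)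
    {F1 F2 : Eu N → ℝ}
    (hF1 : MemLp F1 (ENNReal.ofReal (p / (p - 1))) (volume.restrict Ω))
    (hF2 : MemLp F2 (ENNReal.ofReal (p / (p - 1))) (volume.restrict Ω))
    (h1 : ∀ w ∈ HH Ω p, ∫ x in Ω, ⟪vA p (z1.2 x), w.2 x⟫ = ∫ x in Ω, F1 x * w.1 x)
    (h2 : ∀ w ∈ HH Ω p, ∫ x in Ω, ⟪vA p (z2.2 x), w.2 x⟫ = ∫ x in Ω, F2 x * w.1 x)
    (hle : ∀ᵐ x ∂(volume.restrict Ω), F1 x ≤ F2 x) :
    ∀ᵐ x ∂(volume.restrict Ω), z1.1 x ≤ z2.1 x := by
  have := conj_inst hp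
  obtain ⟨C, hC0, hC⟩ := poincare_HH hN hb hp
  obtain ⟨z', hz', e1, e2⟩ := chain hp gg_smooth gg_zero gg_deriv_le
    ((HH Ω p).sub_mem hz1 hz2)
  have s1 := Lp.coeFn_sub z1.1 z2.1
  have s2 := Lp.coeFn_sub z1.2 z2.2
  have e1' : ∀ᵐ x ∂(volume.restrict Ω), z'.1 x = gg (z1.1 x - z2.1 x) := by
    filter_upwards [e1, s1] with x hx hx'
    rw [hx, Prod.fst_sub, hx', Pi.sub_apply]
  have e2' : ∀ᵐ x ∂(volume.restrict Ω), z'.2 x =
      Real.smoothTransition (z1.1 x - z2.1 x) • (z1.2 x - z2.2 x) := by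
    filter_upwards [e2, s1, s2] with x hx hx' hx''
    rw [hx, Prod.fst_sub, Prod.snd_sub, hx', hx'', Pi.sub_apply, Pi.sub_apply, gg_deriv]
  have i1 : Integrable (fun x => ⟪vA p (z1.2 x), z'.2 x⟫) (volume.restrict Ω) :=
    int_inner hp (memLp_vA hp (Lp.memLp z1.2)) (Lp.memLp z'.2)
  have i2 : Integrable (fun x => ⟪vA p (z2.2 x), z'.2 x⟫) (volume.restrict Ω) :=
    int_inner hp (memLp_vA hp (Lp.memLp z2.2)) (Lp.memLp z'.2)
  have j1 : Integrable (fun x => F1 x * z'.1 x) (volume.restrict Ω) :=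
    hF1.integrable_mul (Lp.memLp z'.1)
  have j2 : Integrable (fun x => F2 x * z'.1 x) (volume.restrict Ω) :=
    hF2.integrable_mul (Lp.memLp z'.1)
  have hR : ∫ x in Ω, F1 x * z'.1 x ≤ ∫ x in Ω, F2 x * z'.1 x := by
    refine integral_mono_ae j1 j2 ?_
    filter_upwards [hle, e1'] with x hx hx'
    have : 0 ≤ z'.1 x := by rw [hx']; exact gg_nonneg _
    exact mul_le_mul_of_nonneg_right hx this
  have hL : ∫ x in Ω, (⟪vA p (z1.2 x), z'.2 x⟫ - ⟪vA p (z2.2 x), z'.2 x⟫) ≤ 0 := by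
    rw [integral_sub i1 i2, h1 z' hz', h2 z' hz']
    linarith
  have hnn : 0 ≤ᵐ[volume.restrict Ω] fun x => ⟪vA p (z1.2 x), z'.2 x⟫ - ⟪vA p (z2.2 x), z'.2 x⟫ := by
    filter_upwards [e2'] with x hx
    rw [hx, ← inner_sub_left, real_inner_smul_right]
    exact mul_nonneg (Real.smoothTransition.nonneg _) (mono_vA hp _ _)
  have h0 : ∫ x in Ω, (⟪vA p (z1.2 x), z'.2 x⟫ - ⟪vA p (z2.2 x), z'.2 x⟫) = 0 :=
    le_antisymm hL (integral_nonneg_of_ae hnn)
  have hz := (integral_eq_zero_iff_of_nonneg_ae hnn (i1.sub i2)).mp h0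
  have hz2 : z'.2 = 0 := by
    rw [Lp.eq_zero_iff_ae_eq_zero]
    filter_upwards [hz, e2'] with x hx hx'
    rw [hx'] at hx
    rw [← inner_sub_left, real_inner_smul_right, Pi.zero_apply] at hx
    rw [hx', Pi.zero_apply]
    rcases mul_eq_zero.mp hx with h | h
    · rw [h, zero_smul]
    · have : z1.2 x = z2.2 x := by
        by_contra hne
        exact (strict_mono_vA hp hne).ne' h
      rw [this, sub_self, smul_zero]
  have hz1 : z'.1 = 0 := by
    have h3 := hC z' hz'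
    rw [hz2, norm_zero, mul_zero] at h3
    exact norm_le_zero_iff.mp h3
  have hz1' := Lp.eq_zero_iff_ae_eq_zero.mp hz1
  filter_upwards [hz1', e1'] with x hx hx'
  rw [hx', Pi.zero_apply] at hx
  by_contra hlt
  rw [not_le] at hlt
  exact (gg_pos (sub_pos.mpr hlt)).ne' hx

/-! ### the definitions of the problem -/

/-- `u ∈ W_0^{1,p}(Ω)` with weak gradient `G`. -/
def W0 (Ω : Set (Eu N)) (p : ℝ) (u : Eu N → ℝ) (G : Eu N → Eu N) : Prop :=
  MemLp u (ENNReal.ofReal p) (volume.restrict Ω) ∧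
  MemLp G (ENNReal.ofReal p) (volume.restrict Ω) ∧
  ∃ φ : ℕ → Eu N → ℝ, (∀ k, IsTest Ω (φ k)) ∧
    Tendsto (fun k => eLpNorm (fun x => φ k x - u x) (ENNReal.ofReal p) (volume.restrict Ω))
      atTop (𝓝 0) ∧
    Tendsto (fun k => eLpNorm (fun x => gradient (φ k) x - G x) (ENNReal.ofReal p)
      (volume.restrict Ω)) atTop (𝓝 0)

/-- The solution set `X(Ω,p)`. -/
def SolX (Ω : Set (Eu N)) (p : ℝ) : Set (Eu N → ℝ) :=
  {u | ∃ (G : Eu N → Eu N) (F : Eu N → ℝ), W0 Ω p u G ∧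
    MemLp F (ENNReal.ofReal (p / (p - 1))) (volume.restrict Ω) ∧
    ∀ φ, IsTest Ω φ →
      ∫ x in Ω, ⟪‖G x‖ ^ (p - 2) • G x, gradient φ x⟫ = ∫ x in Ω, F x * φ x}

/-- The singular set. -/
def Sing (Ω : Set (Eu N)) (u : Eu N → ℝ) : Set (Eu N) :=
  {a | a ∈ Ω ∧ ∃ C γ r : ℝ, 0 < C ∧ 0 < γ ∧ 0 < r ∧ Metric.ball a r ⊆ Ω ∧
    ∀ᵐ x ∂(volume : Measure (Eu N)), x ∈ Metric.ball a r → C * ‖x - a‖ ^ (-γ) ≤ u x}

theorem W0_mem [Fact (1 ≤ ENNReal.ofReal p)] {u : Eu N → ℝ} {G : Eu N → Eu N}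
    (h : W0 Ω p u G) : ((h.1.toLp u, h.2.1.toLp G) :
      Lp ℝ (ENNReal.ofReal p) (volume.restrict Ω) ×
      Lp (Eu N) (ENNReal.ofReal p) (volume.restrict Ω)) ∈ HH Ω p := by
  obtain ⟨hu, hG, φ, hφ, T1, T2⟩ := h
  have m1 : ∀ k, MemLp (φ k) (ENNReal.ofReal p) (volume.restrict Ω) := fun k =>
    (hφ k).memLp _ _
  have m2 : ∀ k, MemLp (gradient (φ k)) (ENNReal.ofReal p) (volume.restrict Ω) := fun k =>
    (hφ k).grad_memLp _ _
  have L1 : Tendsto (fun k => (m1 k).toLp (φ k)) atTop (𝓝 (hu.toLp u)) := by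
    rw [Lp.tendsto_Lp_iff_tendsto_eLpNorm'']
    exact T1
  have L2 : Tendsto (fun k => (m2 k).toLp (gradient (φ k))) atTop (𝓝 (hG.toLp G)) := by
    rw [Lp.tendsto_Lp_iff_tendsto_eLpNorm'']
    exact T2
  exact HH_closed.mem_of_tendsto (L1.prodMk_nhds L2) (Eventually.of_forall fun k =>
    D0_le_HH ⟨φ k, hφ k, (m1 k).coeFn_toLp, (m2 k).coeFn_toLp⟩)

theorem W0_of_mem [Fact (1 ≤ ENNReal.ofReal p)]
    {z : Lp ℝ (ENNReal.ofReal p) (volume.restrict Ω) ×
      Lp (Eu N) (ENNReal.ofReal p) (volume.restrict Ω)} (hz : z ∈ HH Ω p) :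
    W0 Ω p z.1 z.2 := by
  refine ⟨Lp.memLp _, Lp.memLp _, ?_⟩
  have hz' : z ∈ closure (D0 Ω p : Set _) := hz
  obtain ⟨zs, hzs, hlim⟩ := mem_closure_iff_seq_limit.mp hz'
  choose φ hφ h1 h2 using hzs
  have T1 : Tendsto (fun n => (zs n).1) atTop (𝓝 z.1) := (continuous_fst.tendsto _).comp hlim
  have T2 : Tendsto (fun n => (zs n).2) atTop (𝓝 z.2) := (continuous_snd.tendsto _).comp hlim
  have T1' := (Lp.tendsto_Lp_iff_tendsto_eLpNorm' _ _).mp T1
  have T2' := (Lp.tendsto_Lp_iff_tendsto_eLpNorm' _ _).mp T2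
  refine ⟨φ, hφ, T1'.congr fun n => eLpNorm_congr_ae ?_, T2'.congr fun n => eLpNorm_congr_ae ?_⟩
  · filter_upwards [h1 n] with x hx
    rw [Pi.sub_apply, hx]
  · filter_upwards [h2 n] with x hx
    rw [Pi.sub_apply, hx]

theorem zero_mem_SolX : (0 : Eu N → ℝ) ∈ SolX Ω p := by
  have hg0 : gradient (0 : Eu N → ℝ) = 0 := by
    funext x
    rw [gradient]
    have : fderiv ℝ (0 : Eu N → ℝ) x = 0 := by
      have := fderiv_const (𝕜 := ℝ) (E := Eu N) (0 : ℝ)
      exact congrFun this x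
    rw [this, map_zero]; rfl
  refine ⟨0, 0, ⟨MemLp.zero, MemLp.zero, fun _ => 0, fun _ => isTest_zero, ?_, ?_⟩,
    MemLp.zero, fun φ hφ => ?_⟩
  · simp
  · refine (tendsto_const_nhds (x := (0 : ℝ≥0∞))).congr fun n => ?_
    show (0 : ℝ≥0∞) = eLpNorm (fun x => gradient (0 : Eu N → ℝ) x - (0 : Eu N → Eu N) x) _ _
    rw [hg0]; simp
  · simp

theorem main_max (hN : 0 < N) (hΩ : IsOpen Ω) (hb : Bornology.IsBounded Ω) (hp : 1 < p) :
    ∃ v ∈ SolX Ω p, ∀ u ∈ SolX Ω p, dimH (Sing Ω u) ≤ dimH (Sing Ω v) := by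
  have := conj_inst hp
  have := fact_P hp
  have := fact_Q hp
  have hp1 : 0 < p - 1 := by linarith
  set S : Set ℝ≥0∞ := (fun u => dimH (Sing Ω u)) '' SolX Ω p with hS
  have hSne : S.Nonempty := ⟨_, 0, zero_mem_SolX, rfl⟩
  obtain ⟨s, -, hs, hsS⟩ := exists_seq_tendsto_sSup hSne (OrderTop.bddAbove S)
  choose u huX hus using hsS
  choose G F hW hF hE using huX
  have hvA : ∀ n x, ‖G n x‖ ^ (p - 2) • G n x = vA p (G n x) := fun n x => rfl
  -- the source
  set fL : ℕ → Lp ℝ (ENNReal.ofReal (p / (p - 1))) (volume.restrict Ω) :=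
    fun n => (hF n).toLp (F n) with hfL
  set c : ℕ → ℝ := fun n => (1 / 2 : ℝ) ^ n / (1 + ‖fL n‖) with hc
  have hc0 : ∀ n, 0 < c n := fun n => by rw [hc]; positivity
  set a : ℕ → Lp ℝ (ENNReal.ofReal (p / (p - 1))) (volume.restrict Ω) :=
    fun n => |c n • fL n| with ha
  have han : ∀ n, ‖a n‖ ≤ (1 / 2 : ℝ) ^ n := by
    intro n
    rw [ha]
    simp only []
    rw [norm_abs_eq_norm, norm_smul, Real.norm_eq_abs, abs_of_pos (hc0 n), hc]
    simp only []
    rw [div_mul_eq_mul_div, div_le_iff₀ (by positivity)]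
    gcongr
    linarith [norm_nonneg (fL n)]
  have hsum : Summable a := Summable.of_norm_bounded summable_geometric_two han
  set T : Lp ℝ (ENNReal.ofReal (p / (p - 1))) (volume.restrict Ω) := ∑' n, a n with hT
  have haT : ∀ n, c n • fL n ≤ T := fun n =>
    (le_abs_self _).trans (hsum.le_tsum n fun j _ => abs_nonneg _)
  have haT' : ∀ n, ∀ᵐ x ∂(volume.restrict Ω), c n * F n x ≤ T x := by
    intro n
    have h1 := (Lp.coeFn_le _ _).mpr (haT n)
    filter_upwards [h1, Lp.coeFn_smul (c n) (fL n), (hF n).coeFn_toLp] with x h2 h3 h4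
    rw [h3, Pi.smul_apply, smul_eq_mul] at h2
    rwa [hfL, h4] at h2
  -- the solution
  obtain ⟨C, hC0, hC⟩ := poincare_HH hN hb hp
  obtain ⟨L, hL⟩ := exists_pair hp (Lp.memLp T)
  obtain ⟨z, hz, hEL⟩ := exists_EL hp (HH Ω p) HH_closed hC0 hC L
  have hEL' : ∀ w ∈ HH Ω p, ∫ x in Ω, ⟪vA p (z.2 x), w.2 x⟫ = ∫ x in Ω, T x * w.1 x := by
    intro w hw
    rw [hEL w hw, hL]
    exact integral_congr_ae (Eventually.of_forall fun x => real_inner_mul _ _)
  have hzX : (z.1 : Eu N → ℝ) ∈ SolX Ω p := by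
    refine ⟨z.2, T, W0_of_mem hz, Lp.memLp T, fun φ hφ => ?_⟩
    have m1 : MemLp φ (ENNReal.ofReal p) (volume.restrict Ω) := hφ.memLp _ _
    have m2 : MemLp (gradient φ) (ENNReal.ofReal p) (volume.restrict Ω) := hφ.grad_memLp _ _
    have h1 := hEL' (m1.toLp φ, m2.toLp (gradient φ))
      (D0_le_HH ⟨φ, hφ, m1.coeFn_toLp, m2.coeFn_toLp⟩)
    have e1 : ∫ x in Ω, ⟪vA p (z.2 x), (m2.toLp (gradient φ)) x⟫ =
        ∫ x in Ω, ⟪‖z.2 x‖ ^ (p - 2) • z.2 x, gradient φ x⟫ := by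
      refine integral_congr_ae ?_
      filter_upwards [m2.coeFn_toLp] with x hx
      rw [hx]; rfl
    have e2 : ∫ x in Ω, T x * (m1.toLp φ) x = ∫ x in Ω, T x * φ x := by
      refine integral_congr_ae ?_
      filter_upwards [m1.coeFn_toLp] with x hx
      rw [hx]
    rw [← e1, ← e2]
    exact h1
  -- comparison
  have hcomp : ∀ n, ∃ d : ℝ, 0 < d ∧ ∀ᵐ x ∂(volume.restrict Ω), d * u n x ≤ z.1 x := by
    intro n
    set d : ℝ := c n ^ (1 / (p - 1)) with hd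
    have hd0 : 0 < d := Real.rpow_pos_of_pos (hc0 n) _
    have hdp : d ^ (p - 1) = c n := by
      rw [hd, ← Real.rpow_mul (hc0 n).le, one_div_mul_cancel hp1.ne', Real.rpow_one]
    set y : Lp ℝ (ENNReal.ofReal p) (volume.restrict Ω) ×
      Lp (Eu N) (ENNReal.ofReal p) (volume.restrict Ω) :=
      ((hW n).1.toLp (u n), (hW n).2.1.toLp (G n)) with hy
    have hyH : y ∈ HH Ω p := W0_mem (hW n)
    have ey1 : ∀ᵐ x ∂(volume.restrict Ω), (d • y).1 x = d * u n x := by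
      filter_upwards [Lp.coeFn_smul d y.1, (hW n).1.coeFn_toLp] with x h1 h2
      rw [Prod.smul_fst, h1, Pi.smul_apply, smul_eq_mul]
      rw [hy]; simp only []; rw [h2]
    have ey2 : ∀ᵐ x ∂(volume.restrict Ω), (d • y).2 x = d • G n x := by
      filter_upwards [Lp.coeFn_smul d y.2, (hW n).2.1.coeFn_toLp] with x h1 h2
      rw [Prod.smul_snd, h1, Pi.smul_apply]
      rw [hy]; simp only []; rw [h2]
    have hEn : ∀ w ∈ HH Ω p, ∫ x in Ω, ⟪vA p ((d • y).2 x), w.2 x⟫ =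
        ∫ x in Ω, (c n * F n x) * w.1 x := by
      intro w hw
      have h1 := ext_EL hp (memLp_vA hp (hW n).2.1) (hF n) (hE n) hw
      have e1 : ∫ x in Ω, ⟪vA p ((d • y).2 x), w.2 x⟫ =
          ∫ x in Ω, c n * ⟪vA p (G n x), w.2 x⟫ := by
        refine integral_congr_ae ?_
        filter_upwards [ey2] with x hx
        rw [hx, vA_smul hd0, hdp, real_inner_smul_left]
      have e2 : ∫ x in Ω, (c n * F n x) * w.1 x = ∫ x in Ω, c n * (F n x * w.1 x) := by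
        refine integral_congr_ae (Eventually.of_forall fun x => ?_)
        simp only []; ring
      rw [e1, e2, integral_const_mul, integral_const_mul, h1]
    have h2 := comparison hN hb hp ((HH Ω p).smul_mem d hyH) hz ((hF n).const_mul (c n))
      (Lp.memLp T) hEn hEL' (haT' n)
    refine ⟨d, hd0, ?_⟩
    filter_upwards [h2, ey1] with x h3 h4
    rwa [h4] at h3
  have hsub : ∀ n, Sing Ω (u n) ⊆ Sing Ω z.1 := by
    rintro n b ⟨hb1, C', γ, r, hC', hγ, hr, hball, hae⟩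
    obtain ⟨d, hd0, hd⟩ := hcomp n
    refine ⟨hb1, d * C', γ, r, by positivity, hγ, hr, hball, ?_⟩
    have hd' := (ae_restrict_iff' hΩ.measurableSet).mp hd
    filter_upwards [hae, hd'] with x h1 h2 h3
    calc d * C' * ‖x - b‖ ^ (-γ) = d * (C' * ‖x - b‖ ^ (-γ)) := by ring
      _ ≤ d * u n x := by gcongr; exact h1 h3
      _ ≤ _ := h2 (hball h3)
  refine ⟨z.1, hzX, fun v hv => ?_⟩
  have h1 : dimH (Sing Ω v) ≤ sSup S := le_sSup ⟨v, hv, rfl⟩
  refine h1.trans (le_of_tendsto' hs fun n => ?_)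
  rw [← hus n]
  exact dimH_mono (hsub n)

end Pool.Agent.X104.PS
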