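import Pool.Agent.X104.PS.Exist

/-!
The space `W_0^{1,p}(Ω)` as a closed subspace of `L^p × L^p`: Poincaré inequality and chain rule.
-/

set_option autoImplicit false

noncomputable section

open Filter Topology Set MeasureTheory
open scoped RealInnerProductSpace ENNReal ContDiff

namespace Pool.Agent.X104.PS

/-- Euclidean space `ℝ^N`. -/
abbrev Eu (N : ℕ) : Type := EuclideanSpace ℝ (Fin N)

variable {N : ℕ} {Ω : Set (Eu N)} {p : ℝ}

/-- Test functions: `C_c^∞(Ω)`. -/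
def IsTest (Ω : Set (Eu N)) (φ : Eu N → ℝ) : Prop :=
  ContDiff ℝ ∞ φ ∧ HasCompactSupport φ ∧ tsupport φ ⊆ Ω

theorem grad_inner {φ : Eu N → ℝ} (x v : Eu N) : ⟪gradient φ x, v⟫ = fderiv ℝ φ x v := by
  rw [gradient, InnerProductSpace.toDual_symm_apply]

theorem IsTest.diff {φ : Eu N → ℝ} (h : IsTest Ω φ) : Differentiable ℝ φ :=
  h.1.differentiable (by norm_num)

theorem IsTest.grad_cont {φ : Eu N → ℝ} (h : IsTest Ω φ) : Continuous (gradient φ) := by
  have h1 : Continuous (fderiv ℝ φ) := h.1.continuous_fderiv (by norm_num)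
  exact (InnerProductSpace.toDual ℝ (Eu N)).symm.continuous.comp h1

theorem IsTest.grad_zero {φ : Eu N → ℝ} {x : Eu N} (hx : x ∉ tsupport φ) :
    gradient φ x = 0 := by
  have h1 : fderiv ℝ φ x = 0 := by
    by_contra h
    exact hx (support_fderiv_subset ℝ (Function.mem_support.mpr h))
  rw [gradient, h1, map_zero]

theorem IsTest.grad_cs {φ : Eu N → ℝ} (h : IsTest Ω φ) : HasCompactSupport (gradient φ) := by
  refine HasCompactSupport.intro' h.2.1 (isClosed_tsupport φ) fun x hx => IsTest.grad_zero hx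

theorem IsTest.memLp {φ : Eu N → ℝ} (h : IsTest Ω φ) (μ : Measure (Eu N))
    [IsFiniteMeasureOnCompacts μ] (q : ℝ≥0∞) : MemLp φ q μ :=
  h.1.continuous.memLp_of_hasCompactSupport h.2.1

theorem IsTest.grad_memLp {φ : Eu N → ℝ} (h : IsTest Ω φ) (μ : Measure (Eu N))
    [IsFiniteMeasureOnCompacts μ] (q : ℝ≥0∞) : MemLp (gradient φ) q μ :=
  h.grad_cont.memLp_of_hasCompactSupport h.grad_cs

theorem isTest_zero : IsTest Ω (0 : Eu N → ℝ) := by
  refine ⟨contDiff_const, HasCompactSupport.zero, ?_⟩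
  rw [tsupport_zero]; exact empty_subset _

theorem IsTest.add {φ ψ : Eu N → ℝ} (h : IsTest Ω φ) (h' : IsTest Ω ψ) : IsTest Ω (φ + ψ) :=
  ⟨h.1.add h'.1, h.2.1.add h'.2.1, (tsupport_add φ ψ).trans (union_subset h.2.2 h'.2.2)⟩

theorem IsTest.smul {φ : Eu N → ℝ} (h : IsTest Ω φ) (c : ℝ) : IsTest Ω (c • φ) := by
  refine ⟨h.1.const_smul c, h.2.1.smul_left (f := fun _ => c), ?_⟩
  exact (closure_mono (Function.support_const_smul_subset c φ)).trans h.2.2

theorem grad_add {φ ψ : Eu N → ℝ} (h : IsTest Ω φ) (h' : IsTest Ω ψ) (x : Eu N) :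
    gradient (φ + ψ) x = gradient φ x + gradient ψ x := by
  rw [gradient, fderiv_add (h.diff x) (h'.diff x), map_add]; rfl

theorem grad_smul {φ : Eu N → ℝ} (h : IsTest Ω φ) (c : ℝ) (x : Eu N) :
    gradient (c • φ) x = c • gradient φ x := by
  rw [gradient, fderiv_const_smul (h.diff x) c, map_smulₛₗ]
  simp [gradient]

theorem IsTest.comp {φ : Eu N → ℝ} (h : IsTest Ω φ) {g : ℝ → ℝ} (hg : ContDiff ℝ ∞ g)
    (h0 : g 0 = 0) : IsTest Ω (fun x => g (φ x)) := by
  have hs : Function.support (fun x => g (φ x)) ⊆ Function.support φ := by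
    intro x hx hx'
    exact hx (by show g (φ x) = 0; rw [hx', h0])
  refine ⟨hg.comp h.1, h.2.1.mono hs, (closure_mono hs).trans h.2.2⟩

theorem grad_comp {φ : Eu N → ℝ} (h : IsTest Ω φ) {g : ℝ → ℝ} (hg : ContDiff ℝ ∞ g)
    (x : Eu N) : gradient (fun x => g (φ x)) x = deriv g (φ x) • gradient φ x := by
  have h1 : HasFDerivAt (fun x => g (φ x)) (deriv g (φ x) • fderiv ℝ φ x) x := by
    have hg' : HasDerivAt g (deriv g (φ x)) (φ x) :=
      ((hg.differentiable (by norm_num)) _).hasDerivAt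
    exact hg'.comp_hasFDerivAt x (h.diff x).hasFDerivAt
  rw [gradient, h1.fderiv, map_smulₛₗ]
  simp [gradient]

/-- pairs (test function, gradient) -/
def D0 (Ω : Set (Eu N)) (p : ℝ) : Submodule ℝ (Lp ℝ (ENNReal.ofReal p) (volume.restrict Ω) ×
    Lp (Eu N) (ENNReal.ofReal p) (volume.restrict Ω)) where
  carrier := {z | ∃ φ, IsTest Ω φ ∧ z.1 =ᵐ[volume.restrict Ω] φ ∧
    z.2 =ᵐ[volume.restrict Ω] gradient φ}
  add_mem' := by
    rintro a b ⟨φ, hφ, h1, h2⟩ ⟨ψ, hψ, h3, h4⟩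
    refine ⟨φ + ψ, hφ.add hψ, ?_, ?_⟩
    · filter_upwards [Lp.coeFn_add a.1 b.1, h1, h3] with x e1 e2 e3
      rw [Prod.fst_add, e1, Pi.add_apply, e2, e3, Pi.add_apply]
    · filter_upwards [Lp.coeFn_add a.2 b.2, h2, h4] with x e1 e2 e3
      rw [Prod.snd_add, e1, Pi.add_apply, e2, e3, grad_add hφ hψ]
  zero_mem' := by
    refine ⟨0, isTest_zero, ?_, ?_⟩
    · exact Lp.coeFn_zero _ _ _
    · filter_upwards [Lp.coeFn_zero (Eu N) (ENNReal.ofReal p) (volume.restrict Ω)] with x hx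
      show (0 : Lp (Eu N) (ENNReal.ofReal p) (volume.restrict Ω)) x = _
      rw [hx]
      have : gradient (0 : Eu N → ℝ) x = 0 := by
        rw [gradient]
        have : fderiv ℝ (0 : Eu N → ℝ) x = 0 := by
          have := fderiv_const (𝕜 := ℝ) (E := Eu N) (0 : ℝ)
          exact congrFun this x
        rw [this, map_zero]
      rw [this]; rfl
  smul_mem' := by
    rintro c a ⟨φ, hφ, h1, h2⟩
    refine ⟨c • φ, hφ.smul c, ?_, ?_⟩
    · filter_upwards [Lp.coeFn_smul c a.1, h1] with x e1 e2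
      rw [Prod.smul_fst, e1, Pi.smul_apply, e2, Pi.smul_apply]
    · filter_upwards [Lp.coeFn_smul c a.2, h2] with x e1 e2
      rw [Prod.smul_snd, e1, Pi.smul_apply, e2, grad_smul hφ]

/-- the closed subspace modelling `W_0^{1,p}(Ω)` -/
def HH (Ω : Set (Eu N)) (p : ℝ) [Fact (1 ≤ ENNReal.ofReal p)] :
    Submodule ℝ (Lp ℝ (ENNReal.ofReal p) (volume.restrict Ω) ×
    Lp (Eu N) (ENNReal.ofReal p) (volume.restrict Ω)) :=
  (D0 Ω p).topologicalClosure

theorem HH_closed [Fact (1 ≤ ENNReal.ofReal p)] :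
    IsClosed (HH Ω p : Set (Lp ℝ (ENNReal.ofReal p) (volume.restrict Ω) ×
    Lp (Eu N) (ENNReal.ofReal p) (volume.restrict Ω))) :=
  Submodule.isClosed_topologicalClosure _

theorem D0_le_HH [Fact (1 ≤ ENNReal.ofReal p)] : D0 Ω p ≤ HH Ω p :=
  Submodule.le_topologicalClosure _

/-- a closed condition that holds on `D0` holds on `HH` -/
theorem HH_induction [Fact (1 ≤ ENNReal.ofReal p)]
    {S : Set (Lp ℝ (ENNReal.ofReal p) (volume.restrict Ω) ×
    Lp (Eu N) (ENNReal.ofReal p) (volume.restrict Ω))} (hS : IsClosed S)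
    (h : ∀ z ∈ D0 Ω p, z ∈ S) {z : Lp ℝ (ENNReal.ofReal p) (volume.restrict Ω) ×
    Lp (Eu N) (ENNReal.ofReal p) (volume.restrict Ω)} (hz : z ∈ HH Ω p) : z ∈ S := by
  have h1 : closure (D0 Ω p : Set _) ⊆ S := closure_minimal h hS
  exact h1 hz

theorem lint_eLp {β : Type*} [MeasurableSpace β] {ν : Measure β} {F : Type*}
    [NormedAddCommGroup F] (hp : 1 < p) (f : β → F) :
    eLpNorm f (ENNReal.ofReal p) ν = (∫⁻ x, ‖f x‖ₑ ^ p ∂ν) ^ (1 / p) := by
  rw [eLpNorm_eq_lintegral_rpow_enorm_toReal (P_ne_zero hp) ENNReal.ofReal_ne_top, P_toReal hp]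

/-- Poincaré inequality for test functions. -/
theorem poincare_test (hN : 0 < N) (hb : Bornology.IsBounded Ω) (hp : 1 < p) :
    ∃ C : ℝ≥0∞, C ≠ ⊤ ∧ ∀ φ, IsTest Ω φ →
      eLpNorm φ (ENNReal.ofReal p) (volume.restrict Ω) ≤
        C * eLpNorm (gradient φ) (ENNReal.ofReal p) (volume.restrict Ω) := by
  have hp0 : 0 < p := by linarith
  obtain ⟨R, hR0, hR⟩ := hb.subset_ball_lt 0 0
  set L : ℝ := 2 * R with hL
  have hL0 : 0 < L := by positivity
  set e : Eu N := EuclideanSpace.single ⟨0, hN⟩ (1 : ℝ) with he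
  have hen : ‖e‖ = 1 := by rw [he, EuclideanSpace.norm_single, norm_one]
  set ν : Measure ℝ := volume.restrict (Ioc 0 L) with hν
  have hνu : ν univ = ENNReal.ofReal L := by
    rw [hν, Measure.restrict_apply_univ, Real.volume_Ioc, sub_zero]
  set K : ℝ≥0∞ := ν univ ^ (1 - 1 / p) with hK
  have hexp : 0 ≤ 1 - 1 / p := by
    rw [sub_nonneg, div_le_one hp0]; exact hp.le
  have hKt : K ≠ ⊤ := by
    rw [hK, hνu]; exact ENNReal.rpow_ne_top_of_nonneg hexp ENNReal.ofReal_ne_top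
  refine ⟨(K ^ p * ν univ) ^ (1 / p), ?_, fun φ hφ => ?_⟩
  · refine ENNReal.rpow_ne_top_of_nonneg (by positivity) (ENNReal.mul_ne_top ?_ ?_)
    · exact ENNReal.rpow_ne_top_of_nonneg hp0.le hKt
    · rw [hνu]; exact ENNReal.ofReal_ne_top
  have hs1 : Function.support φ ⊆ Ω := (subset_tsupport φ).trans hφ.2.2
  have hs2 : Function.support (gradient φ) ⊆ Ω := by
    intro x hx
    by_contra h
    exact hx (IsTest.grad_zero fun h' => h (hφ.2.2 h'))
  rw [eLpNorm_restrict_eq_of_support_subset hs1, eLpNorm_restrict_eq_of_support_subset hs2]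
  -- pointwise
  have hpt : ∀ x, ‖φ x‖ₑ ≤ ∫⁻ t, ‖gradient φ (x + t • e)‖ₑ ∂ν := by
    intro x
    by_cases hx : x ∈ Ω
    · have h1 : ∀ t : ℝ, HasDerivAt (fun t : ℝ => φ (x + t • e)) ⟪gradient φ (x + t • e), e⟫ t := by
        intro t
        rw [grad_inner]
        have h2 : HasDerivAt (fun t : ℝ => x + t • e) e t := by
          have := ((hasDerivAt_id t).smul_const e).const_add x
          simpa using this
        exact (hφ.diff (x + t • e)).hasFDerivAt.comp_hasDerivAt t h2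
      have hc : Continuous fun t : ℝ => ⟪gradient φ (x + t • e), e⟫ :=
        (hφ.grad_cont.comp (by fun_prop)).inner continuous_const
      have h3 := intervalIntegral.integral_eq_sub_of_hasDerivAt (a := 0) (b := L)
        (fun t _ => h1 t) (hc.intervalIntegrable 0 L)
      have h4 : φ (x + L • e) = 0 := by
        refine image_eq_zero_of_notMem_tsupport fun h => ?_
        have h5 := hR (hφ.2.2 h)
        have h6 := hR hx
        rw [Metric.mem_ball, dist_zero_right] at h5 h6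
        have h7 : ‖L • e‖ ≤ ‖x + L • e‖ + ‖x‖ := by
          calc ‖L • e‖ = ‖(x + L • e) - x‖ := by congr 1; abel
            _ ≤ _ := norm_sub_le _ _
        rw [norm_smul, hen, Real.norm_eq_abs, abs_of_pos hL0] at h7
        linarith
      rw [h4, zero_smul, add_zero, zero_sub, intervalIntegral.integral_of_le hL0.le] at h3
      have h8 : ‖φ x‖ₑ = ‖∫ t, ⟪gradient φ (x + t • e), e⟫ ∂ν‖ₑ := by
        rw [hν, h3, enorm_neg]
      rw [h8]
      refine (enorm_integral_le_lintegral_enorm _).trans (lintegral_mono fun t => ?_)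
      rw [← ofReal_norm, ← ofReal_norm]
      refine ENNReal.ofReal_le_ofReal ?_
      calc ‖⟪gradient φ (x + t • e), e⟫‖ ≤ ‖gradient φ (x + t • e)‖ * ‖e‖ := norm_inner_le_norm _ _
        _ = _ := by rw [hen, mul_one]
    · have : φ x = 0 := image_eq_zero_of_notMem_tsupport fun h => hx (hφ.2.2 h)
      rw [this, enorm_zero]; exact zero_le
  have hpt2 : ∀ x, ‖φ x‖ₑ ^ p ≤ (∫⁻ t, ‖gradient φ (x + t • e)‖ₑ ^ p ∂ν) * K ^ p := by
    intro x
    have hcf : Continuous fun t : ℝ => gradient φ (x + t • e) := hφ.grad_cont.comp (by fun_prop)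
    have h1 := eLpNorm_le_eLpNorm_mul_rpow_measure_univ (p := 1) (q := ENNReal.ofReal p) (μ := ν)
      (by rw [← ENNReal.ofReal_one]; exact ENNReal.ofReal_le_ofReal hp.le)
      hcf.aestronglyMeasurable
    rw [eLpNorm_one_eq_lintegral_enorm, lint_eLp hp, ENNReal.toReal_one, div_one, P_toReal hp] at h1
    calc ‖φ x‖ₑ ^ p ≤ (∫⁻ t, ‖gradient φ (x + t • e)‖ₑ ∂ν) ^ p :=
          ENNReal.rpow_le_rpow (hpt x) hp0.le
      _ ≤ ((∫⁻ t, ‖gradient φ (x + t • e)‖ₑ ^ p ∂ν) ^ (1 / p) * K) ^ p :=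
          ENNReal.rpow_le_rpow h1 hp0.le
      _ = _ := by
          rw [ENNReal.mul_rpow_of_nonneg _ _ hp0.le, ← ENNReal.rpow_mul, one_div_mul_cancel hp0.ne',
            ENNReal.rpow_one]
  have hint : ∫⁻ x, ‖φ x‖ₑ ^ p ≤ (K ^ p * ν univ) * ∫⁻ x, ‖gradient φ x‖ₑ ^ p := by
    have hmeas : Measurable (Function.uncurry fun (x : Eu N) (t : ℝ) =>
        ‖gradient φ (x + t • e)‖ₑ ^ p) := by
      have hc : Continuous (Function.uncurry fun (x : Eu N) (t : ℝ) =>
        gradient φ (x + t • e)) := hφ.grad_cont.comp (by fun_prop)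
      exact hc.measurable.enorm.pow_const p
    calc ∫⁻ x, ‖φ x‖ₑ ^ p ≤ ∫⁻ x, (∫⁻ t, ‖gradient φ (x + t • e)‖ₑ ^ p ∂ν) * K ^ p :=
          lintegral_mono hpt2
      _ = (∫⁻ x, ∫⁻ t, ‖gradient φ (x + t • e)‖ₑ ^ p ∂ν) * K ^ p := by
          rw [lintegral_mul_const' _ _ (ENNReal.rpow_ne_top_of_nonneg hp0.le hKt)]
      _ = (∫⁻ t, ∫⁻ x, ‖gradient φ (x + t • e)‖ₑ ^ p ∂volume ∂ν) * K ^ p := by
          rw [lintegral_lintegral_swap hmeas.aemeasurable]
      _ = (∫⁻ _t, (∫⁻ x, ‖gradient φ x‖ₑ ^ p) ∂ν) * K ^ p := by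
          congr 1
          refine lintegral_congr fun t => ?_
          exact lintegral_add_right_eq_self (fun x => ‖gradient φ x‖ₑ ^ p) (t • e)
      _ = _ := by
          rw [lintegral_const]; ring
  rw [lint_eLp hp, lint_eLp hp, ← ENNReal.mul_rpow_of_nonneg _ _ (by positivity)]
  exact ENNReal.rpow_le_rpow hint (by positivity)

theorem poincare_HH (hN : 0 < N) (hb : Bornology.IsBounded Ω) (hp : 1 < p)
    [Fact (1 ≤ ENNReal.ofReal p)] :
    ∃ C : ℝ, 0 ≤ C ∧ ∀ z ∈ HH Ω p, ‖z.1‖ ≤ C * ‖z.2‖ := by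
  obtain ⟨C, hC, h⟩ := poincare_test hN hb hp
  refine ⟨C.toReal, ENNReal.toReal_nonneg, fun z hz => ?_⟩
  refine HH_induction (S := {z | ‖z.1‖ ≤ C.toReal * ‖z.2‖}) ?_ ?_ hz
  · exact isClosed_le (by fun_prop) (by fun_prop)
  · rintro z ⟨φ, hφ, h1, h2⟩
    show ‖z.1‖ ≤ C.toReal * ‖z.2‖
    rw [Lp.norm_def, Lp.norm_def, eLpNorm_congr_ae h1, eLpNorm_congr_ae h2, ← ENNReal.toReal_mul]
    refine ENNReal.toReal_mono (ENNReal.mul_ne_top hC ?_) (h φ hφ)
    exact (hφ.grad_memLp _ _).eLpNorm_ne_top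

/-- dominated convergence in `L^p` -/
theorem tendsto_eLpNorm_dom {β : Type*} [MeasurableSpace β] {ν : Measure β} {F : Type*}
    [NormedAddCommGroup F] (hp : 1 < p) {f : ℕ → β → F} {g : β → ℝ}
    (hg : MemLp g (ENNReal.ofReal p) ν) (hf : ∀ n, AEStronglyMeasurable (f n) ν)
    (hb : ∀ n, ∀ᵐ x ∂ν, ‖f n x‖ ≤ ‖g x‖)
    (hl : ∀ᵐ x ∂ν, Tendsto (fun n => f n x) atTop (𝓝 0)) :
    Tendsto (fun n => eLpNorm (f n) (ENNReal.ofReal p) ν) atTop (𝓝 0) := by
  have hp0 : 0 < p := by linarith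
  have hm : ∀ n, MemLp (f n) (ENNReal.ofReal p) ν := fun n => hg.of_le (hf n) (hb n)
  have h1 : Tendsto (fun n => ∫ x, ‖f n x‖ ^ p ∂ν) atTop (𝓝 (∫ _x, (0 : ℝ) ∂ν)) := by
    refine tendsto_integral_of_dominated_convergence (fun x => ‖g x‖ ^ p)
      (fun n => (memLp_int hp (hm n)).aestronglyMeasurable) (memLp_int hp hg) (fun n => ?_) ?_
    · filter_upwards [hb n] with x hx
      rw [Real.norm_eq_abs, abs_of_nonneg (by positivity)]
      gcongr
    · filter_upwards [hl] with x hx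
      have h2 := hx.norm.rpow_const (p := p) (Or.inr hp0.le)
      rwa [norm_zero, Real.zero_rpow hp0.ne'] at h2
  rw [integral_zero] at h1
  have h2 := h1.rpow_const (p := p⁻¹) (Or.inr (by positivity))
  rw [Real.zero_rpow (by positivity)] at h2
  have h3 := (ENNReal.continuous_ofReal.tendsto 0).comp h2
  rw [ENNReal.ofReal_zero] at h3
  refine h3.congr fun n => ?_
  rw [Function.comp_apply, eLpNorm_int hp (hm n)]

/-- Chain rule in `W_0^{1,p}`. -/
theorem chain (hp : 1 < p) [Fact (1 ≤ ENNReal.ofReal p)] {g : ℝ → ℝ} (hg : ContDiff ℝ ∞ g)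
    (h0 : g 0 = 0) (hd : ∀ t, |deriv g t| ≤ 1)
    {z : Lp ℝ (ENNReal.ofReal p) (volume.restrict Ω) ×
      Lp (Eu N) (ENNReal.ofReal p) (volume.restrict Ω)} (hz : z ∈ HH Ω p) :
    ∃ z' ∈ HH Ω p, (z'.1 =ᵐ[volume.restrict Ω] fun x => g (z.1 x)) ∧
      (z'.2 =ᵐ[volume.restrict Ω] fun x => deriv g (z.1 x) • z.2 x) := by
  have hgd : Differentiable ℝ g := hg.differentiable (by norm_num)
  have hgc : Continuous g := hg.continuous
  have hgdc : Continuous (deriv g) := hg.continuous_deriv (by norm_num)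
  have hlip : ∀ s t, ‖g s - g t‖ ≤ ‖s - t‖ := by
    intro s t
    have := Convex.norm_image_sub_le_of_norm_deriv_le (f := g) (C := 1) (s := univ)
      (fun x _ => hgd x) (fun x _ => by rw [Real.norm_eq_abs]; exact hd x) convex_univ
      (mem_univ t) (mem_univ s)
    rwa [one_mul] at this
  have hz' : z ∈ closure (D0 Ω p : Set _) := hz
  obtain ⟨zs, hzs, hlim⟩ := mem_closure_iff_seq_limit.mp hz'
  choose φ hφ h1 h2 using hzs
  have T1 : Tendsto (fun n => (zs n).1) atTop (𝓝 z.1) := (continuous_fst.tendsto _).comp hlim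
  have T2 : Tendsto (fun n => (zs n).2) atTop (𝓝 z.2) := (continuous_snd.tendsto _).comp hlim
  obtain ⟨ns, hns, hae⟩ := (tendstoInMeasure_of_tendsto_Lp T1).exists_seq_tendsto_ae
  have T1' := (Lp.tendsto_Lp_iff_tendsto_eLpNorm' _ _).mp (T1.comp hns.tendsto_atTop)
  have T2' := (Lp.tendsto_Lp_iff_tendsto_eLpNorm' _ _).mp (T2.comp hns.tendsto_atTop)
  have hu : MemLp (fun x => g (z.1 x)) (ENNReal.ofReal p) (volume.restrict Ω) := by
    refine (Lp.memLp z.1).of_le (hgc.comp_aestronglyMeasurable (Lp.aestronglyMeasurable z.1))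
      (Eventually.of_forall fun x => ?_)
    have := hlip (z.1 x) 0
    rwa [h0, sub_zero, sub_zero] at this
  have hG : MemLp (fun x => deriv g (z.1 x) • z.2 x) (ENNReal.ofReal p) (volume.restrict Ω) := by
    refine (Lp.memLp z.2).of_le ((hgdc.comp_aestronglyMeasurable
      (Lp.aestronglyMeasurable z.1)).smul (Lp.aestronglyMeasurable z.2))
      (Eventually.of_forall fun x => ?_)
    rw [norm_smul, Real.norm_eq_abs]
    calc |deriv g (z.1 x)| * ‖z.2 x‖ ≤ 1 * ‖z.2 x‖ := by gcongr; exact hd _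
      _ = _ := one_mul _
  set ψ : ℕ → Eu N → ℝ := fun n x => g (φ (ns n) x) with hψ
  have hψt : ∀ n, IsTest Ω (ψ n) := fun n => (hφ (ns n)).comp hg h0
  have hψ1 : ∀ n, MemLp (ψ n) (ENNReal.ofReal p) (volume.restrict Ω) := fun n => (hψt n).memLp _ _
  have hψ2 : ∀ n, MemLp (gradient (ψ n)) (ENNReal.ofReal p) (volume.restrict Ω) := fun n => (hψt n).grad_memLp _ _
  have hw : ∀ n, (((hψ1 n).toLp (ψ n), (hψ2 n).toLp (gradient (ψ n))) :
      Lp ℝ (ENNReal.ofReal p) (volume.restrict Ω) × Lp (Eu N) (ENNReal.ofReal p) (volume.restrict Ω)) ∈ D0 Ω p := fun n =>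
    ⟨ψ n, hψt n, MemLp.coeFn_toLp (hψ1 n), MemLp.coeFn_toLp (hψ2 n)⟩
  have hL1 : Tendsto (fun n => (hψ1 n).toLp (ψ n)) atTop (𝓝 (hu.toLp _)) := by
    rw [Lp.tendsto_Lp_iff_tendsto_eLpNorm'']
    refine tendsto_of_tendsto_of_tendsto_of_le_of_le tendsto_const_nhds T1' (fun n => zero_le)
      fun n => ?_
    refine eLpNorm_mono_ae ?_
    filter_upwards [h1 (ns n)] with x hx
    show ‖g (φ (ns n) x) - g (z.1 x)‖ ≤ ‖(zs (ns n)).1 x - z.1 x‖
    rw [hx]; exact hlip _ _
  have hL2 : Tendsto (fun n => (hψ2 n).toLp (gradient (ψ n))) atTop (𝓝 (hG.toLp _)) := by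
    rw [Lp.tendsto_Lp_iff_tendsto_eLpNorm'']
    set r : ℕ → Eu N → Eu N := fun n x => (deriv g (φ (ns n) x) - deriv g (z.1 x)) • z.2 x with hr
    have hrm : ∀ n, AEStronglyMeasurable (r n) (volume.restrict Ω) := fun n =>
      (((hgdc.comp (hφ (ns n)).1.continuous).aestronglyMeasurable).sub
        (hgdc.comp_aestronglyMeasurable (Lp.aestronglyMeasurable z.1))).smul
        (Lp.aestronglyMeasurable z.2)
    have hr0 : Tendsto (fun n => eLpNorm (r n) (ENNReal.ofReal p) (volume.restrict Ω)) atTop (𝓝 0) := by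
      refine tendsto_eLpNorm_dom (g := fun x => 2 * ‖z.2 x‖) hp
        ((Lp.memLp z.2).norm.const_mul 2) hrm (fun n => Eventually.of_forall fun x => ?_) ?_
      · rw [hr]
        simp only []
        rw [norm_smul, Real.norm_eq_abs, Real.norm_eq_abs, abs_of_nonneg (a := 2 * ‖z.2 x‖)
          (by positivity)]
        gcongr
        calc |deriv g (φ (ns n) x) - deriv g (z.1 x)| ≤ |deriv g (φ (ns n) x)| + |deriv g (z.1 x)| :=
              abs_sub _ _
          _ ≤ 1 + 1 := add_le_add (hd _) (hd _)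
          _ = 2 := by norm_num
      · have hall : ∀ᵐ x ∂(volume.restrict Ω), ∀ n, (zs (ns n)).1 x = φ (ns n) x := by
          rw [ae_all_iff]; intro n; exact h1 (ns n)
        filter_upwards [hae, hall] with x hx hx'
        have h3 : Tendsto (fun n => deriv g (φ (ns n) x)) atTop (𝓝 (deriv g (z.1 x))) := by
          refine (hgdc.tendsto _).comp (hx.congr fun n => hx' n)
        have h4 := (h3.sub_const (deriv g (z.1 x))).smul_const (z.2 x)
        rw [sub_self, zero_smul] at h4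
        exact h4
    have hsum := T2'.add hr0
    rw [add_zero] at hsum
    refine tendsto_of_tendsto_of_tendsto_of_le_of_le tendsto_const_nhds hsum (fun n => zero_le)
      fun n => ?_
    set s : Eu N → Eu N := fun x => deriv g (φ (ns n) x) • ((zs (ns n)).2 x - z.2 x) with hs
    have hsm : AEStronglyMeasurable s (volume.restrict Ω) :=
      ((hgdc.comp (hφ (ns n)).1.continuous).aestronglyMeasurable).smul
        ((Lp.aestronglyMeasurable _).sub (Lp.aestronglyMeasurable _))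
    have hsle : eLpNorm s (ENNReal.ofReal p) (volume.restrict Ω) ≤
        eLpNorm ((zs (ns n)).2 - z.2 : Eu N → Eu N) (ENNReal.ofReal p) (volume.restrict Ω) := by
      refine eLpNorm_mono_ae (Eventually.of_forall fun x => ?_)
      rw [hs]
      simp only [Pi.sub_apply]
      rw [norm_smul, Real.norm_eq_abs]
      calc |deriv g (φ (ns n) x)| * ‖(zs (ns n)).2 x - z.2 x‖
          ≤ 1 * ‖(zs (ns n)).2 x - z.2 x‖ := by gcongr; exact hd _
        _ = _ := one_mul _
    have heq : (gradient (ψ n) - fun x => deriv g (z.1 x) • z.2 x) =ᵐ[volume.restrict Ω] s + r n := by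
      filter_upwards [h2 (ns n)] with x hx
      rw [Pi.sub_apply, Pi.add_apply, hs, hr]
      simp only []
      rw [hψ, grad_comp (hφ (ns n)) hg, hx]
      module
    rw [eLpNorm_congr_ae heq]
    refine (eLpNorm_add_le hsm (hrm n) Fact.out).trans ?_
    exact add_le_add hsle le_rfl
  refine ⟨(hu.toLp _, hG.toLp _), ?_, MemLp.coeFn_toLp hu, MemLp.coeFn_toLp hG⟩
  have : Tendsto (fun n => (((hψ1 n).toLp (ψ n), (hψ2 n).toLp (gradient (ψ n))) :
      Lp ℝ (ENNReal.ofReal p) (volume.restrict Ω) × Lp (Eu N) (ENNReal.ofReal p) (volume.restrict Ω))) atTop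
      (𝓝 (hu.toLp _, hG.toLp _)) := hL1.prodMk_nhds hL2
  exact HH_closed.mem_of_tendsto this (Eventually.of_forall fun n => D0_le_HH (hw n))

end Pool.Agent.X104.PS
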